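import Mathlib

/-!
The correlation map and the set of correlation matrices without constant rows.
-/

set_option autoImplicit false

namespace Pool.Agent.Helper46.Corr

/-- The centering matrix `H_n = I_n - (1/n) 1 1^T`. -/
noncomputable def centering (n : ℕ) : Matrix (Fin n) (Fin n) ℝ :=
  1 - (1 / (n : ℝ)) • Matrix.of (fun _ _ => (1 : ℝ))

/-- The correlation map: `C(A)_{ij} = <H a_i, H a_j> / (|H a_i| |H a_j|)`, where `a_i` is the
`i`-th row of `A`. -/
noncomputable def corrMap {n : ℕ} (A : Matrix (Fin n) (Fin n) ℝ) : Matrix (Fin n) (Fin n) ℝ :=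
  Matrix.of fun i j =>
    ((centering n).mulVec (A i) ⬝ᵥ (centering n).mulVec (A j)) /
      (Real.sqrt ((centering n).mulVec (A i) ⬝ᵥ (centering n).mulVec (A i)) *
        Real.sqrt ((centering n).mulVec (A j) ⬝ᵥ (centering n).mulVec (A j)))

/-- The set `C_n^nd` of correlation matrices (real symmetric, positive semidefinite, unit
diagonal) none of whose rows is constant (`H_n a_i ≠ 0` for every row `a_i`). -/
def CorrND (n : ℕ) : Set (Matrix (Fin n) (Fin n) ℝ) :=
  {A | A.PosSemidef ∧ (∀ i, A i i = 1) ∧ ∀ i, (centering n).mulVec (A i) ≠ 0}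

/-- The omega-limit set of the orbit of `A`: the accumulation points (cluster points) of the
sequence `k ↦ C^k(A)` in the space of real `n × n` matrices. -/
def omegaSet {n : ℕ} (A : Matrix (Fin n) (Fin n) ℝ) : Set (Matrix (Fin n) (Fin n) ℝ) :=
  {L | MapClusterPt L Filter.atTop (fun k : ℕ => corrMap^[k] A)}

end Pool.Agent.Helper46.Corr
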