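import Pool.Agent.Helper46.Corr.Repel

/-!
Existence of non-convergent orbits of the planar map for an open set of parameters.
-/

set_option autoImplicit false
open Filter Topology

namespace Pool.Agent.Helper46.Corr

noncomputable section

/-- Positivity conditions needed to go back to the correlation map. -/
def Good (l : Par) (z : Pt) : Prop :=
  0 < z.1 ∧ 0 < 1 - 8*l.1*z.2 ∧ 0 < VV l.1 l.2.1 l.2.2 z.1 z.2 ∧ 0 < D1 l.1 l.2.1 l.2.2 z.1 z.2 ∧
    0 < D2 l.1 l.2.1 l.2.2 z.1 z.2 ∧ 0 < cM l.1 l.2.1 l.2.2 ∧ 0 < dM l.1 l.2.1 ∧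
    0 < aM l.1 l.2.1 l.2.2 ∧ l.1^2*z.1^2 < 1 ∧ l.1^2*(rho l.1 z.1 z.2)^2 < 1

theorem good_near {l : Par} {z : Pt} (hl : l.1 = 0) (hz : 0 < z.1) :
    ∀ᶠ q : Par × Pt in 𝓝 (l, z), Good q.1 q.2 := by
  have hV := contDiff_VV.continuous
  have h1 := contDiff_D1.continuous
  have h2 := contDiff_D2.continuous
  have c1 : Continuous (fun q : Par × Pt => q.2.1) := by fun_prop
  have c2 : Continuous (fun q : Par × Pt => 1 - 8*q.1.1*q.2.2) := by fun_prop
  have c3 : Continuous (fun q : Par × Pt => cM q.1.1 q.1.2.1 q.1.2.2) := by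
    unfold cM dM; fun_prop
  have c4 : Continuous (fun q : Par × Pt => dM q.1.1 q.1.2.1) := by
    unfold dM; fun_prop
  have c5 : Continuous (fun q : Par × Pt => aM q.1.1 q.1.2.1 q.1.2.2) := by
    unfold aM cM dM; fun_prop
  have c6 : Continuous (fun q : Par × Pt => q.1.1^2*q.2.1^2) := by fun_prop
  have c7 : Continuous (fun q : Par × Pt => q.1.1^2*(rho q.1.1 q.2.1 q.2.2)^2) := by
    unfold rho; fun_prop
  have e1 := (c1.tendsto (l, z)).eventually_const_lt (u := 0) hz
  have e2 := (c2.tendsto (l, z)).eventually_const_lt (u := 0) (by simp [hl])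
  have e3 := (hV.tendsto (l, z)).eventually_const_lt (u := 0)
    (by simp [hl, VV, cM, dM])
  have e4 := (h1.tendsto (l, z)).eventually_const_lt (u := 0)
    (by simp [hl, D1_zero])
  have e5 := (h2.tendsto (l, z)).eventually_const_lt (u := 0)
    (by simp [hl, D2_zero])
  have e6 := (c3.tendsto (l, z)).eventually_const_lt (u := 0)
    (by simp [hl, cM, dM])
  have e7 := (c4.tendsto (l, z)).eventually_const_lt (u := 0)
    (by simp [hl, dM])
  have e8 := (c5.tendsto (l, z)).eventually_const_lt (u := 0)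
    (by simp [hl, aM, cM, dM]; norm_num)
  have e9 := (c6.tendsto (l, z)).eventually_lt_const (u := 1) (by simp [hl])
  have e10 := (c7.tendsto (l, z)).eventually_lt_const (u := 1) (by simp [hl])
  filter_upwards [e1, e2, e3, e4, e5, e6, e7, e8, e9, e10] with q a1 a2 a3 a4 a5 a6 a7 a8 a9 a10
  exact ⟨a1, a2, a3, a4, a5, a6, a7, a8, a9, a10⟩

theorem BB_pos {z : Pt} (hz : z ∈ BB) : 0 < z.1 := by
  have := (abs_le.mp hz.1).1
  unfold r0 at this
  linarith

theorem zero_unique {b : ℝ} (hb : 7/2 ≤ b) {z : Pt} (hz : 0 < z.1) (h : G (lb b, z) = 0) :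
    z = zb b := by
  have hG := G_zero ((3-2*b)/4) b z.1 z.2
  have e : ((lb b, z) : Par × Pt) = ((0, (3-2*b)/4, b), (z.1, z.2)) := rfl
  rw [e, hG] at h
  have h1 := congrArg Prod.fst h
  have h2 := congrArg Prod.snd h
  simp only [Prod.fst_zero, Prod.snd_zero] at h1 h2
  have h3 : 3*z.1^2 - 8*z.1*z.2 - 4*((3-2*b)/4) = 0 := by
    rcases mul_eq_zero.mp h1 with h | h
    · linarith
    · exact h
  have h4 : (z.1-1)*(3*z.1^2+3*z.1+2*b) = 0 := by
    have : z.1*(3*z.1^2 - 8*z.1*z.2 - 4*((3-2*b)/4)) = 0 := by rw [h3]; ring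
    nlinarith
  have h5 : z.1 = 1 := by
    rcases mul_eq_zero.mp h4 with h | h
    · linarith
    · nlinarith
  refine Prod.ext h5 ?_
  rw [h5] at h2
  simp only [zb]
  linarith

theorem dyn : ∃ b : ℝ, ∀ᶠ l in 𝓝 (lb b), 0 < l.1 → ∃ z0 : Pt,
    (∀ k, (TT l)^[k] z0 ∈ BB ∧ Good l ((TT l)^[k] z0)) ∧ ¬ ∃ L, Tendsto (fun k => (TT l)^[k] z0) atTop (𝓝 L) := by
  -- choice of b
  have hcont : Tendsto lb (𝓝 4) (𝓝 lH) := by
    have : Continuous lb := by unfold lb; fun_prop
    have h4 : lb 4 = lH := by unfold lb lH; norm_num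
    rw [← h4]; exact this.tendsto 4
  have h1 : ∀ᶠ b in 𝓝[<] (4:ℝ), ∀ᶠ l in 𝓝 (lb b), ∀ z ∈ BB, TT l z ∈ BB :=
    (hcont.eventually (trap.eventually_nhds)).filter_mono nhdsWithin_le_nhds
  have h2 : ∀ᶠ b in 𝓝[<] (4:ℝ), b < 4 := self_mem_nhdsWithin
  have h3 : ∀ᶠ b in 𝓝[<] (4:ℝ), 4 - 1/5000 < b :=
    (eventually_gt_nhds (by norm_num)).filter_mono nhdsWithin_le_nhds
  obtain ⟨b, hb1, hb2, hb3⟩ := (h1.and (h2.and h3)).exists
  refine ⟨b, ?_⟩
  have hb72 : 7/2 ≤ b := by linarith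
  have hc : 0 < (4-b)/32 := by linarith
  obtain ⟨ε, hε, hst⟩ := Metric.eventually_nhds_iff.mp (strict_near b hc)
  set ρ := min ε (1/20000) with hρ
  have hρ0 : 0 < ρ := lt_min hε (by norm_num)
  have hρε : ρ ≤ ε := min_le_left _ _
  have hρ2 : ρ ≤ 1/20000 := min_le_right _ _
  -- the neighbourhood for expansion
  have hexp : ∀ᶠ l in 𝓝 (lb b), ∀ z ∈ Metric.ball (zb b) ρ, ∀ z' ∈ Metric.ball (zb b) ρ,
      ‖G (l, z) - G (l, z') - JJ b (z - z')‖ ≤ (4-b)/32*‖z - z'‖ := by
    filter_upwards [Metric.ball_mem_nhds (lb b) hε] with l hl z hz z' hz'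
    refine hst (y := ((l, z), (l, z'))) ?_ rfl
    rw [Metric.mem_ball] at hl hz hz'
    rw [Prod.dist_eq, Prod.dist_eq, Prod.dist_eq]
    exact max_lt (max_lt hl (hz.trans_le hρε)) (max_lt hl (hz'.trans_le hρε))
  -- zeros
  have hzeros : ∀ᶠ l in 𝓝 (lb b), ∀ z ∈ BB \ Metric.ball (zb b) (ρ/2), G (l, z) ≠ 0 := by
    have hK : IsCompact (BB \ Metric.ball (zb b) (ρ/2)) := BB_compact.diff Metric.isOpen_ball
    refine hK.eventually_forall_of_forall_eventually (P := fun l z => G (l, z) ≠ 0) ?_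
    intro z hz
    have hGc : ContinuousAt G (lb b, z) := (contDiffAt_G (p := (lb b, z)) rfl).continuousAt
    have hne : G (lb b, z) ≠ 0 := by
      intro h0
      have := zero_unique hb72 (BB_pos hz.1) h0
      apply hz.2
      rw [this]
      exact Metric.mem_ball_self (by linarith)
    exact hGc.eventually_ne hne
  -- images of far points
  have hfar : ∀ᶠ l in 𝓝 (lb b), ∀ z ∈ BB \ Metric.ball (zb b) ρ,
      TT l z ∉ Metric.closedBall (zb b) (ρ/2) := by
    have hK : IsCompact (BB \ Metric.ball (zb b) ρ) := BB_compact.diff Metric.isOpen_ball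
    refine hK.eventually_forall_of_forall_eventually
      (P := fun l z => TT l z ∉ Metric.closedBall (zb b) (ρ/2)) ?_
    intro z hz
    have hGc : ContinuousAt G (lb b, z) := (contDiffAt_G (p := (lb b, z)) rfl).continuousAt
    have hTc : ContinuousAt (fun q : Par × Pt => TT q.1 q.2) (lb b, z) := by
      unfold TT
      have c1 : ContinuousAt (fun q : Par × Pt => q.2) (lb b, z) := by fun_prop
      have c2 : ContinuousAt (fun q : Par × Pt => q.1.1^2) (lb b, z) := by fun_prop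
      exact c1.add (c2.smul hGc)
    have hT0 : TT (lb b) z = z := by unfold TT lb; simp
    have hopen : (Metric.closedBall (zb b) (ρ/2))ᶜ ∈ 𝓝 z := by
      refine Metric.isClosed_closedBall.isOpen_compl.mem_nhds ?_
      intro hzin
      apply hz.2
      rw [Metric.mem_closedBall] at hzin
      rw [Metric.mem_ball]
      linarith
    have : (Metric.closedBall (zb b) (ρ/2))ᶜ ∈ 𝓝 ((fun q : Par × Pt => TT q.1 q.2) (lb b, z)) := by
      simpa [hT0] using hopen
    exact hTc.eventually_mem this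
  -- continuity
  have hcts : ∀ᶠ l in 𝓝 (lb b), ∀ z ∈ BB, ContinuousAt G (l, z) := by
    refine BB_compact.eventually_forall_of_forall_eventually
      (P := fun l z => ContinuousAt G (l, z)) ?_
    intro z hz
    have hcd := contDiffAt_G (p := (lb b, z)) rfl
    filter_upwards [hcd.eventually (by norm_num)] with q hq
    exact hq.continuousAt
  have hgood : ∀ᶠ l in 𝓝 (lb b), ∀ z ∈ BB, Good l z := by
    refine BB_compact.eventually_forall_of_forall_eventually (P := fun l z => Good l z) ?_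
    intro z hz
    exact good_near rfl (BB_pos hz)
  filter_upwards [hb1, hexp, hzeros, hfar, hcts, hgood] with l hT hE hZ hF hC hGd he
  obtain ⟨z0, hz0, hz0far⟩ : ∃ z0 ∈ BB, z0 ∉ Metric.ball (zb b) ρ := by
    refine ⟨(1 + 1/5000, 1), BB_mem_of (by norm_num) (by norm_num), ?_⟩
    intro hmem
    rw [Metric.mem_ball, Prod.dist_eq] at hmem
    have := (le_max_left _ _).trans_lt hmem
    rw [Real.dist_eq] at this
    simp only [zb] at this
    norm_num at this
    linarith
  refine ⟨z0, ?_⟩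
  have hB : ∀ k, (TT l)^[k] z0 ∈ BB := by
    intro k
    induction k with
    | zero => exact hz0
    | succ k ih => rw [Function.iterate_succ_apply']; exact hT _ ih
  refine ⟨fun k => ⟨hB k, hGd _ (hB k)⟩, ?_⟩
  rintro ⟨L, hL⟩
  have hLB : L ∈ BB := BB_closed.mem_of_tendsto hL (Eventually.of_forall hB)
  have hTL : TT l L = L := by
    have hcT : ContinuousAt (TT l) L := by
      have hg : ContinuousAt (fun z : Pt => G (l, z)) L :=
        ContinuousAt.comp (x := L) (g := G) (f := fun z : Pt => (l, z)) (hC L hLB)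
          (by fun_prop)
      have c1 : ContinuousAt (fun z : Pt => z) L := continuousAt_id
      exact c1.add (hg.const_smul (l.1^2))
    have h1 : Tendsto (fun k => TT l ((TT l)^[k] z0)) atTop (𝓝 (TT l L)) := hcT.tendsto.comp hL
    have h2 : Tendsto (fun k => TT l ((TT l)^[k] z0)) atTop (𝓝 L) := by
      have : (fun k => TT l ((TT l)^[k] z0)) = fun k => (TT l)^[k+1] z0 := by
        funext k; rw [Function.iterate_succ_apply']
      rw [this]
      exact hL.comp (tendsto_add_atTop_nat 1)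
    exact tendsto_nhds_unique h1 h2
  have hGL : G (l, L) = 0 := by
    have h1 : l.1^2 • G (l, L) = 0 := by
      have : L + l.1^2 • G (l, L) = L := hTL
      simpa using this
    rcases smul_eq_zero.mp h1 with h | h
    · exact absurd h (by positivity)
    · exact h
  have hLball : L ∈ Metric.ball (zb b) (ρ/2) := by
    by_contra hcon
    exact hZ L ⟨hLB, hcon⟩ hGL
  have hLball' : L ∈ Metric.ball (zb b) ρ := Metric.ball_subset_ball (by linarith) hLball
  have hstep : ∀ z ∈ Metric.ball (zb b) ρ, NN b (z - L) ≤ NN b (TT l z - L) := by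
    intro z hz
    have h1 := hE z hz L hLball'
    rw [hGL, sub_zero] at h1
    have h2 := NN_expand hb72 hb2.le (sq_nonneg l.1) (z - L) (G (l, z)) h1 le_rfl
    have h3 : TT l z - L = z - L + l.1^2 • G (l, z) := by
      unfold TT; abel
    rw [h3]; exact h2
  have hne : ∀ k, (TT l)^[k] z0 ≠ L := by
    intro k
    induction k with
    | zero =>
      intro h
      apply hz0far
      have : z0 = L := h
      rw [this]; exact hLball'
    | succ k ih =>
      intro h
      rw [Function.iterate_succ_apply'] at h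
      by_cases hk : (TT l)^[k] z0 ∈ Metric.ball (zb b) ρ
      · have h1 := hstep _ hk
        rw [h, sub_self] at h1
        have h2 := NN_lower hb72 hb2.le ((TT l)^[k] z0 - L)
        have h3 : 0 < ‖(TT l)^[k] z0 - L‖ := norm_pos_iff.mpr (sub_ne_zero.mpr ih)
        have h4 : NN b (0 : Pt) = 0 := by simp [NN]
        rw [h4] at h1
        have : 0 < 3/4*‖(TT l)^[k] z0 - L‖^2 := by positivity
        linarith
      · apply hF _ ⟨hB k, hk⟩
        rw [h]
        exact Metric.ball_subset_closedBall hLball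
  have hev : ∀ᶠ k in atTop, (TT l)^[k] z0 ∈ Metric.ball (zb b) ρ :=
    hL.eventually_mem (Metric.isOpen_ball.mem_nhds hLball')
  obtain ⟨K, hK⟩ := eventually_atTop.mp hev
  have hmono : ∀ k ≥ K, NN b ((TT l)^[K] z0 - L) ≤ NN b ((TT l)^[k] z0 - L) := by
    intro k hk
    induction k, hk using Nat.le_induction with
    | base => exact le_rfl
    | succ k hk ih =>
      rw [Function.iterate_succ_apply']
      exact ih.trans (hstep _ (hK k hk))
  have hpos : 0 < NN b ((TT l)^[K] z0 - L) := by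
    have h2 := NN_lower hb72 hb2.le ((TT l)^[K] z0 - L)
    have h3 : 0 < ‖(TT l)^[K] z0 - L‖ := norm_pos_iff.mpr (sub_ne_zero.mpr (hne K))
    have : 0 < 3/4*‖(TT l)^[K] z0 - L‖^2 := by positivity
    linarith
  have hNc : Continuous (NN b) := by unfold NN; fun_prop
  have hlim : Tendsto (fun k => NN b ((TT l)^[k] z0 - L)) atTop (𝓝 (NN b (L - L))) :=
    (hNc.tendsto _).comp (hL.sub_const L)
  have hlim0 : NN b (L - L) = 0 := by simp [NN]
  rw [hlim0] at hlim
  have := ge_of_tendsto hlim (eventually_atTop.mpr ⟨K, hmono⟩)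
  linarith

/-- Open set of parameters with a fixed positive first coordinate. -/
theorem dyn' : ∃ e g m : ℝ, 0 < e ∧ ∀ᶠ q : ℝ × ℝ in 𝓝 (g, m), ∃ z0 : Pt,
    (∀ k, (TT (e, q.1, q.2))^[k] z0 ∈ BB ∧ Good (e, q.1, q.2) ((TT (e, q.1, q.2))^[k] z0)) ∧
      ¬ ∃ L, Tendsto (fun k => (TT (e, q.1, q.2))^[k] z0) atTop (𝓝 L) := by
  obtain ⟨b, hb⟩ := dyn
  have h1 := hb.eventually_nhds
  have hcont : Tendsto (fun e : ℝ => ((e, (3-2*b)/4, b) : Par)) (𝓝 0) (𝓝 (lb b)) := by
    have : Continuous (fun e : ℝ => ((e, (3-2*b)/4, b) : Par)) := by fun_prop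
    exact this.tendsto 0
  have h2 : ∀ᶠ e in 𝓝[>] (0:ℝ), ∀ᶠ l in 𝓝 (((e, (3-2*b)/4, b) : Par)), 0 < l.1 → ∃ z0 : Pt,
    (∀ k, (TT l)^[k] z0 ∈ BB ∧ Good l ((TT l)^[k] z0)) ∧ ¬ ∃ L, Tendsto (fun k => (TT l)^[k] z0) atTop (𝓝 L) :=
    (hcont.eventually h1).filter_mono nhdsWithin_le_nhds
  have h3 : ∀ᶠ e in 𝓝[>] (0:ℝ), 0 < e := self_mem_nhdsWithin
  obtain ⟨e, he1, he2⟩ := (h2.and h3).exists
  refine ⟨e, (3-2*b)/4, b, he2, ?_⟩
  have hc2 : Tendsto (fun q : ℝ × ℝ => ((e, q.1, q.2) : Par)) (𝓝 ((3-2*b)/4, b))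
      (𝓝 (e, (3-2*b)/4, b)) := by
    have : Continuous (fun q : ℝ × ℝ => ((e, q.1, q.2) : Par)) := by fun_prop
    exact this.tendsto _
  filter_upwards [hc2.eventually he1] with q hq
  exact hq he2

end

end Pool.Agent.Helper46.Corr
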