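import Pool.Agent.Helper46.Corr.Dyn

/-!
Nontrivial omega-limit sets of the planar map, without periodic points of small period.
-/

set_option autoImplicit false
open Filter Topology

namespace Pool.Agent.Helper46.Corr

noncomputable section

/-- The starting region. -/
def U0 : Set Pt := Metric.ball ((1 + 3/20000, 1) : Pt) (1/40000)

theorem U0_coord {z : Pt} (hz : z ∈ U0) : |z.1 - (1+3/20000)| < 1/40000 ∧ |z.2-1| < 1/40000 := by
  unfold U0 at hz
  rw [Metric.mem_ball, Prod.dist_eq] at hz
  exact ⟨(le_max_left _ _).trans_lt hz, (le_max_right _ _).trans_lt hz⟩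

theorem U0_sub : U0 ⊆ BB := by
  intro z hz
  obtain ⟨h1, h2⟩ := U0_coord hz
  rw [abs_lt] at h1 h2
  refine BB_mem_of ?_ ?_ <;> rw [abs_le] <;> constructor <;> linarith [h1.1, h1.2, h2.1, h2.2]

theorem U0_far {b ρ : ℝ} (hρ : ρ ≤ 1/20000) {z : Pt} (hz : z ∈ U0) :
    z ∉ Metric.ball (zb b) ρ := by
  intro hmem
  obtain ⟨h1, h2⟩ := U0_coord hz
  rw [Metric.mem_ball, Prod.dist_eq] at hmem
  have := (le_max_left _ _).trans_lt hmem
  rw [Real.dist_eq] at this
  simp only [zb] at this
  rw [abs_lt] at h1 this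
  linarith [h1.1, this.2]

theorem TT_zero {l : Par} (hl : l.1 = 0) (z : Pt) : TT l z = z := by
  unfold TT; rw [hl]; simp

theorem iter_cont {l0 : Par} (hl : l0.1 = 0) (z : Pt) (j : ℕ) :
    ContinuousAt (fun q : Par × Pt => (TT q.1)^[j] q.2) (l0, z) ∧ (TT l0)^[j] z = z := by
  induction j with
  | zero =>
    refine ⟨?_, rfl⟩
    simp only [Function.iterate_zero, id_eq]
    fun_prop
  | succ j ih =>
    obtain ⟨ih1, ih2⟩ := ih
    refine ⟨?_, ?_⟩
    · have hGc : ContinuousAt G (l0, z) := (contDiffAt_G (p := (l0, z)) hl).continuousAt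
      have hTc : ContinuousAt (fun q : Par × Pt => TT q.1 q.2) (l0, z) := by
        unfold TT
        have c1 : ContinuousAt (fun q : Par × Pt => q.2) (l0, z) := by fun_prop
        have c2 : ContinuousAt (fun q : Par × Pt => q.1.1^2) (l0, z) := by fun_prop
        exact c1.add (c2.smul hGc)
      have c3 : ContinuousAt (fun q : Par × Pt => (q.1, (TT q.1)^[j] q.2)) (l0, z) := by
        have : ContinuousAt (fun q : Par × Pt => q.1) (l0, z) := by fun_prop
        exact this.prodMk ih1
      have c4 : (fun q : Par × Pt => (TT q.1)^[j+1] q.2)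
          = (fun q : Par × Pt => TT q.1 q.2) ∘ (fun q : Par × Pt => (q.1, (TT q.1)^[j] q.2)) := by
        funext q
        simp only [Function.comp_apply, Function.iterate_succ_apply']
      rw [c4]
      refine ContinuousAt.comp (x := ((l0, z) : Par × Pt)) ?_ c3
      simp only [ih2]
      exact hTc
    · rw [Function.iterate_succ_apply', ih2, TT_zero hl]

theorem iter_sum (l : Par) (z : Pt) (p : ℕ) :
    (TT l)^[p] z = z + l.1^2 • ∑ j ∈ Finset.range p, G (l, (TT l)^[j] z) := by
  induction p with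
  | zero => simp
  | succ p ih =>
    rw [Function.iterate_succ_apply', Finset.sum_range_succ, smul_add, ← add_assoc, ← ih]
    rfl

theorem dynM (M : ℕ) : ∃ b : ℝ, ∀ᶠ l in 𝓝 (lb b), 0 < l.1 →
    (∀ z ∈ BB, TT l z ∈ BB ∧ Good l z ∧ ContinuousAt (TT l) z) ∧
    (∀ p, 1 ≤ p → p ≤ M → ∀ z ∈ BB, (TT l)^[p] z = z → TT l z = z) ∧
    (∀ z0 ∈ U0, ∀ w, MapClusterPt w atTop (fun k => (TT l)^[k] z0) → TT l w ≠ w) := by
  -- choice of b
  have hcont : Tendsto lb (𝓝 4) (𝓝 lH) := by
    have : Continuous lb := by unfold lb; fun_prop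
    have h4 : lb 4 = lH := by unfold lb lH; norm_num
    rw [← h4]; exact this.tendsto 4
  have h1 : ∀ᶠ b in 𝓝[<] (4:ℝ), ∀ᶠ l in 𝓝 (lb b), ∀ z ∈ BB, TT l z ∈ BB :=
    (hcont.eventually (trap.eventually_nhds)).filter_mono nhdsWithin_le_nhds
  have h2 : ∀ᶠ b in 𝓝[<] (4:ℝ), b < 4 := self_mem_nhdsWithin
  have h3 : ∀ᶠ b in 𝓝[<] (4:ℝ), 4 - 1/5000 < b :=
    (eventually_gt_nhds (by norm_num)).filter_mono nhdsWithin_le_nhds
  obtain ⟨b, hb1, hb2, hb3⟩ := (h1.and (h2.and h3)).exists
  refine ⟨b, ?_⟩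
  have hb72 : 7/2 ≤ b := by linarith
  have hc : 0 < (4-b)/32 := by linarith
  have hlb : (lb b).1 = 0 := rfl
  obtain ⟨ε, hε, hst⟩ := Metric.eventually_nhds_iff.mp (strict_near b hc)
  set ρ := min ε (1/20000) with hρ
  have hρ0 : 0 < ρ := lt_min hε (by norm_num)
  have hρε : ρ ≤ ε := min_le_left _ _
  have hρ2 : ρ ≤ 1/20000 := min_le_right _ _
  -- the neighbourhood for expansion
  have hexp : ∀ᶠ l in 𝓝 (lb b), ∀ z ∈ Metric.ball (zb b) ρ, ∀ z' ∈ Metric.ball (zb b) ρ,
      ‖G (l, z) - G (l, z') - JJ b (z - z')‖ ≤ (4-b)/32*‖z - z'‖ := by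
    filter_upwards [Metric.ball_mem_nhds (lb b) hε] with l hl z hz z' hz'
    refine hst (y := ((l, z), (l, z'))) ?_ rfl
    rw [Metric.mem_ball] at hl hz hz'
    rw [Prod.dist_eq, Prod.dist_eq, Prod.dist_eq]
    exact max_lt (max_lt hl (hz.trans_le hρε)) (max_lt hl (hz'.trans_le hρε))
  have hG0ne : ∀ z ∈ BB \ Metric.ball (zb b) (ρ/2), G (lb b, z) ≠ 0 := by
    intro z hz h0
    have := zero_unique hb72 (BB_pos hz.1) h0
    apply hz.2
    rw [this]
    exact Metric.mem_ball_self (by linarith)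
  -- sums of the vector field along orbit pieces
  have hzeros : ∀ᶠ l in 𝓝 (lb b), ∀ p ∈ Finset.range (M+1), ∀ z ∈ BB \ Metric.ball (zb b) (ρ/2),
      ∑ j ∈ Finset.range (p+1), G (l, (TT l)^[j] z) ≠ 0 := by
    rw [Filter.eventually_all_finset]
    intro p _
    have hK : IsCompact (BB \ Metric.ball (zb b) (ρ/2)) := BB_compact.diff Metric.isOpen_ball
    refine hK.eventually_forall_of_forall_eventually
      (P := fun l z => ∑ j ∈ Finset.range (p+1), G (l, (TT l)^[j] z) ≠ 0) ?_
    intro z hz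
    have hGc : ContinuousAt G (lb b, z) := (contDiffAt_G (p := (lb b, z)) rfl).continuousAt
    have hc1 : ContinuousAt (fun q : Par × Pt =>
        ∑ j ∈ Finset.range (p+1), G (q.1, (TT q.1)^[j] q.2)) (lb b, z) := by
      refine tendsto_finsetSum _ fun j _ => ?_
      have hi := iter_cont hlb z j
      have c3 : ContinuousAt (fun q : Par × Pt => (q.1, (TT q.1)^[j] q.2)) (lb b, z) := by
        have : ContinuousAt (fun q : Par × Pt => q.1) (lb b, z) := by fun_prop
        exact this.prodMk hi.1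
      have hGc' : ContinuousAt G ((fun q : Par × Pt => (q.1, (TT q.1)^[j] q.2)) (lb b, z)) := by
        simp only [hi.2]; exact hGc
      exact ContinuousAt.comp (x := ((lb b, z) : Par × Pt)) hGc' c3
    refine hc1.eventually_ne ?_
    have hsum : ∑ j ∈ Finset.range (p+1), G (lb b, (TT (lb b))^[j] z)
        = ((p+1 : ℕ) : ℝ) • G (lb b, z) := by
      rw [Finset.sum_congr rfl (fun j _ => by rw [(iter_cont hlb z j).2]), Finset.sum_const,
        Finset.card_range, Nat.cast_smul_eq_nsmul]
    simp only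
    rw [hsum]
    exact smul_ne_zero (by positivity) (hG0ne z hz)
  -- points near the focus stay near it for M steps
  have hstay : ∀ᶠ l in 𝓝 (lb b), ∀ p ∈ Finset.range (M+1),
      ∀ z ∈ Metric.closedBall (zb b) (ρ/2), (TT l)^[p] z ∈ Metric.ball (zb b) ρ := by
    rw [Filter.eventually_all_finset]
    intro p _
    refine (isCompact_closedBall (zb b) (ρ/2)).eventually_forall_of_forall_eventually
      (P := fun l z => (TT l)^[p] z ∈ Metric.ball (zb b) ρ) ?_
    intro z hz
    have hi := iter_cont hlb z p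
    refine hi.1.eventually_mem ?_
    simp only [hi.2]
    refine Metric.isOpen_ball.mem_nhds ?_
    rw [Metric.mem_closedBall] at hz
    rw [Metric.mem_ball]
    linarith
  -- images of far points
  have hfar : ∀ᶠ l in 𝓝 (lb b), ∀ z ∈ BB \ Metric.ball (zb b) ρ,
      TT l z ∉ Metric.closedBall (zb b) (3*ρ/4) := by
    have hK : IsCompact (BB \ Metric.ball (zb b) ρ) := BB_compact.diff Metric.isOpen_ball
    refine hK.eventually_forall_of_forall_eventually
      (P := fun l z => TT l z ∉ Metric.closedBall (zb b) (3*ρ/4)) ?_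
    intro z hz
    have hi := iter_cont hlb z 1
    have hopen : (Metric.closedBall (zb b) (3*ρ/4))ᶜ ∈ 𝓝 z := by
      refine Metric.isClosed_closedBall.isOpen_compl.mem_nhds ?_
      intro hzin
      apply hz.2
      rw [Metric.mem_closedBall] at hzin
      rw [Metric.mem_ball]
      linarith
    have h5 := hi.1.eventually_mem (s := (Metric.closedBall (zb b) (3*ρ/4))ᶜ)
      (by simp only [hi.2]; exact hopen)
    exact h5
  -- continuity
  have hcts : ∀ᶠ l in 𝓝 (lb b), ∀ z ∈ BB, ContinuousAt G (l, z) := by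
    refine BB_compact.eventually_forall_of_forall_eventually
      (P := fun l z => ContinuousAt G (l, z)) ?_
    intro z hz
    have hcd := contDiffAt_G (p := (lb b, z)) rfl
    filter_upwards [hcd.eventually (by norm_num)] with q hq
    exact hq.continuousAt
  have hgood : ∀ᶠ l in 𝓝 (lb b), ∀ z ∈ BB, Good l z := by
    refine BB_compact.eventually_forall_of_forall_eventually (P := fun l z => Good l z) ?_
    intro z hz
    exact good_near rfl (BB_pos hz)
  filter_upwards [hb1, hexp, hzeros, hstay, hfar, hcts, hgood] with l hT hE hZ hS hF hC hGd he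
  have he2 : 0 < l.1^2 := by positivity
  have hstep : ∀ z ∈ Metric.ball (zb b) ρ, ∀ z' ∈ Metric.ball (zb b) ρ,
      NN b (z - z') + l.1^2*((4-b)/4*‖z - z'‖^2) ≤ NN b (TT l z - TT l z') := by
    intro z hz z' hz'
    have h1 := hE z hz z' hz'
    have h2 := NN_expand' hb72 hb2.le (sq_nonneg l.1) (z - z') (G (l, z) - G (l, z')) h1 le_rfl
    have h3 : TT l z - TT l z' = z - z' + l.1^2 • (G (l, z) - G (l, z')) := by
      unfold TT; rw [smul_sub]; abel
    rw [h3]; exact h2
  refine ⟨fun z hz => ⟨hT z hz, hGd z hz, ?_⟩, ?_, ?_⟩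
  · have hg : ContinuousAt (fun z : Pt => G (l, z)) z :=
      ContinuousAt.comp (x := z) (g := G) (f := fun z : Pt => (l, z)) (hC z hz) (by fun_prop)
    have c1 : ContinuousAt (fun z : Pt => z) z := continuousAt_id
    exact c1.add (hg.const_smul (l.1^2))
  · intro p hp1 hpM z hz hper
    by_cases hzb : z ∈ Metric.ball (zb b) (ρ/2)
    · have hin : ∀ j, j ≤ p → (TT l)^[j] z ∈ Metric.ball (zb b) ρ := fun j hj =>
        hS j (Finset.mem_range.mpr (by omega)) z (Metric.ball_subset_closedBall hzb)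
      have hd : ∀ j, j < p → NN b ((TT l)^[j+1] z - (TT l)^[j] z)
          + l.1^2*((4-b)/4*‖(TT l)^[j+1] z - (TT l)^[j] z‖^2)
          ≤ NN b ((TT l)^[j+2] z - (TT l)^[j+1] z) := by
        intro j hj
        have := hstep _ (hin (j+1) (by omega)) _ (hin j (by omega))
        rw [← Function.iterate_succ_apply' (TT l), ← Function.iterate_succ_apply' (TT l)] at this
        exact this
      have hmono : ∀ j, j < p → NN b ((TT l)^[0+1] z - (TT l)^[0] z)
          + l.1^2*((4-b)/4*‖(TT l)^[0+1] z - (TT l)^[0] z‖^2)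
          ≤ NN b ((TT l)^[j+2] z - (TT l)^[j+1] z) := by
        intro j hj
        induction j with
        | zero => exact hd 0 hj
        | succ j ih =>
          have h1 := ih (by omega)
          have h2 := hd (j+1) hj
          have h3 : 0 ≤ l.1^2*((4-b)/4*‖(TT l)^[j+1+1] z - (TT l)^[j+1] z‖^2) := by
            have : 0 ≤ (4-b)/4 := by linarith
            positivity
          have h4 : (TT l)^[j+1+1] z = (TT l)^[j+2] z := rfl
          rw [h4] at h2 h3
          linarith
      have hlast := hmono (p-1) (by omega)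
      have e1 : p - 1 + 2 = p + 1 := by omega
      have e2 : p - 1 + 1 = p := by omega
      have e5 : (TT l)^[p+1] z = TT l z := by rw [Function.iterate_succ_apply', hper]
      rw [e1, e2, hper, e5] at hlast
      have hlast2 : NN b (TT l z - z) + l.1^2*((4-b)/4*‖TT l z - z‖^2) ≤ NN b (TT l z - z) :=
        hlast
      have h5 : l.1^2*((4-b)/4*‖TT l z - z‖^2) ≤ 0 := by linarith
      have h6 : ‖TT l z - z‖ = 0 := by
        by_contra hne
        have h7 : 0 < ‖TT l z - z‖ := lt_of_le_of_ne (norm_nonneg _) (Ne.symm hne)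
        have h8 : 0 < (4-b)/4 := by linarith
        have : 0 < l.1^2*((4-b)/4*‖TT l z - z‖^2) := by positivity
        linarith
      exact sub_eq_zero.mp (norm_eq_zero.mp h6)
    · exfalso
      have h1 := iter_sum l z p
      rw [hper] at h1
      have h2 : l.1^2 • ∑ j ∈ Finset.range p, G (l, (TT l)^[j] z) = 0 := by
        have : z + l.1^2 • ∑ j ∈ Finset.range p, G (l, (TT l)^[j] z) = z := h1.symm
        simpa using this
      rcases smul_eq_zero.mp h2 with h | h
      · exact absurd h he2.ne'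
      · have := hZ (p-1) (Finset.mem_range.mpr (by omega)) z ⟨hz, hzb⟩
        rw [show p - 1 + 1 = p by omega] at this
        exact this h
  · intro z0 hz0 w hw hfix
    have hB : ∀ k, (TT l)^[k] z0 ∈ BB := by
      intro k
      induction k with
      | zero => exact U0_sub hz0
      | succ k ih => rw [Function.iterate_succ_apply']; exact hT _ ih
    have hwB : w ∈ BB := by
      by_contra hcon
      have h1 := hw.frequently (BB_closed.isOpen_compl.mem_nhds hcon)
      obtain ⟨k, hk⟩ := h1.exists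
      exact hk (hB k)
    have hwb : w ∈ Metric.ball (zb b) (ρ/2) := by
      by_contra hcon
      have h1 := hZ 0 (Finset.mem_range.mpr (by omega)) w ⟨hwB, hcon⟩
      apply h1
      have h2 : w + l.1^2 • G (l, w) = w := hfix
      have h3 : l.1^2 • G (l, w) = 0 := by simpa using h2
      rcases smul_eq_zero.mp h3 with h | h
      · exact absurd h he2.ne'
      · simpa using h
    have hwb' : w ∈ Metric.ball (zb b) ρ := Metric.ball_subset_ball (by linarith) hwb
    have hdist : ∀ z : Pt, z ∉ Metric.ball (zb b) (3*ρ/4) → 3/64*ρ^2 ≤ NN b (z - w) := by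
      intro z hz
      have h1 := NN_lower hb72 hb2.le (z - w)
      rw [Metric.mem_ball] at hz hwb
      have h2 : ρ/4 ≤ ‖z - w‖ := by
        rw [← dist_eq_norm]
        have h3 := dist_triangle z w (zb b)
        linarith [not_lt.mp hz]
      have h4 : (ρ/4)^2 ≤ ‖z - w‖^2 := pow_le_pow_left₀ (by positivity) h2 2
      nlinarith
    have hlow : ∀ k, 3/64*ρ^2 ≤ NN b ((TT l)^[k] z0 - w) := by
      intro k
      induction k with
      | zero =>
        refine hdist _ ?_
        intro hmem
        exact U0_far (b := b) hρ2 hz0 (Metric.ball_subset_ball (by linarith) hmem)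
      | succ k ih =>
        rw [Function.iterate_succ_apply']
        by_cases hk : (TT l)^[k] z0 ∈ Metric.ball (zb b) ρ
        · have h1 := hstep _ hk w hwb'
          rw [hfix] at h1
          have h3 : 0 ≤ l.1^2*((4-b)/4*‖(TT l)^[k] z0 - w‖^2) := by
            have : 0 ≤ (4-b)/4 := by linarith
            positivity
          linarith
        · refine hdist _ ?_
          intro hmem
          exact hF _ ⟨hB k, hk⟩ (Metric.ball_subset_closedBall hmem)
    have hNc : Continuous (fun z : Pt => NN b (z - w)) := by unfold NN; fun_prop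
    have hnhd : {z : Pt | NN b (z - w) < 3/64*ρ^2} ∈ 𝓝 w := by
      refine (isOpen_lt hNc continuous_const).mem_nhds ?_
      simp only [Set.mem_ofPred_eq, sub_self]
      have h4 : NN b (0 : Pt) = 0 := by simp [NN]
      rw [h4]; positivity
    obtain ⟨k, hk⟩ := (hw.frequently hnhd).exists
    exact absurd (hlow k) (not_le.mpr hk)

/-- Open set of parameters with a fixed positive first coordinate. -/
theorem dynM' (M : ℕ) : ∃ e g m : ℝ, 0 < e ∧ ∀ᶠ q : ℝ × ℝ in 𝓝 (g, m),
    (∀ z ∈ BB, TT (e, q.1, q.2) z ∈ BB ∧ Good (e, q.1, q.2) z ∧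
      ContinuousAt (TT (e, q.1, q.2)) z) ∧
    (∀ p, 1 ≤ p → p ≤ M → ∀ z ∈ BB, (TT (e, q.1, q.2))^[p] z = z → TT (e, q.1, q.2) z = z) ∧
    (∀ z0 ∈ U0, ∀ w, MapClusterPt w atTop (fun k => (TT (e, q.1, q.2))^[k] z0) →
      TT (e, q.1, q.2) w ≠ w) := by
  obtain ⟨b, hb⟩ := dynM M
  have h1 := hb.eventually_nhds
  have hcont : Tendsto (fun e : ℝ => ((e, (3-2*b)/4, b) : Par)) (𝓝 0) (𝓝 (lb b)) := by
    have : Continuous (fun e : ℝ => ((e, (3-2*b)/4, b) : Par)) := by fun_prop
    exact this.tendsto 0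
  have h2 := (hcont.eventually h1).filter_mono (nhdsWithin_le_nhds (s := Set.Ioi (0:ℝ)))
  have h3 : ∀ᶠ e in 𝓝[>] (0:ℝ), 0 < e := self_mem_nhdsWithin
  obtain ⟨e, he1, he2⟩ := (h2.and h3).exists
  refine ⟨e, (3-2*b)/4, b, he2, ?_⟩
  have hc2 : Tendsto (fun q : ℝ × ℝ => ((e, q.1, q.2) : Par)) (𝓝 ((3-2*b)/4, b))
      (𝓝 (e, (3-2*b)/4, b)) := by
    have : Continuous (fun q : ℝ × ℝ => ((e, q.1, q.2) : Par)) := by fun_prop
    exact this.tendsto _
  filter_upwards [hc2.eventually he1] with q hq
  exact hq he2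

end

end Pool.Agent.Helper46.Corr
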