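import Pool.Agent.Helper46.Corr.Defs
import Pool.Agent.Helper46.Corr.Dyn2

/-!
# Non-convergent orbits of the iterated correlation map: the five-type configuration
-/

set_option autoImplicit false
set_option linter.unusedSimpArgs false
open Filter Topology

namespace Pool.Agent.Helper46.Corr

theorem centering_apply {n : ℕ} (x : Fin n → ℝ) (k : Fin n) :
    (centering n).mulVec x k = x k - (1 / (n : ℝ)) * ∑ j, x j := by
  rw [centering, Matrix.sub_mulVec, Matrix.one_mulVec, Pi.sub_apply]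
  simp [Matrix.mulVec, dotProduct, Finset.mul_sum]

/-- Vectors of the five types. -/
noncomputable def wv (S R : ℝ) : Fin 5 → Fin 3 → ℝ :=
  ![![1, 0, 0], ![S, Real.sqrt (1-S^2), 0], ![S, -Real.sqrt (1-S^2), 0],
    ![-R, 0, Real.sqrt (1-R^2)], ![-R, 0, -Real.sqrt (1-R^2)]]

/-- Gram matrix of the configuration. -/
noncomputable def gram {n : ℕ} (τ : Fin n → Fin 5) (S R : ℝ) : Matrix (Fin n) (Fin n) ℝ :=
  Matrix.of fun i j => ∑ l, wv S R (τ i) l * wv S R (τ j) l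

theorem exists_types {n n0 k1 k2 : ℕ} (h : n0 + k1 + k1 + k2 + k2 = n) :
    ∃ τ : Fin n → Fin 5, ∀ f : Fin 5 → ℝ,
      ∑ i, f (τ i) = n0*f 0 + k1*f 1 + k1*f 2 + k2*f 3 + k2*f 4 := by
  have hcard : Fintype.card (Fin n0 ⊕ Fin k1 ⊕ Fin k1 ⊕ Fin k2 ⊕ Fin k2) = n := by
    simp only [Fintype.card_sum, Fintype.card_fin]; omega
  let e := Fintype.equivFinOfCardEq hcard
  let ty : (Fin n0 ⊕ Fin k1 ⊕ Fin k1 ⊕ Fin k2 ⊕ Fin k2) → Fin 5 :=
    Sum.elim (fun _ => 0) (Sum.elim (fun _ => 1) (Sum.elim (fun _ => 2)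
      (Sum.elim (fun _ => 3) (fun _ => 4))))
  refine ⟨fun i => ty (e.symm i), fun f => ?_⟩
  rw [Equiv.sum_comp e.symm (fun x => f (ty x))]
  simp only [Fintype.sum_sum_type, ty, Sum.elim_inl, Sum.elim_inr, Finset.sum_const,
    Finset.card_univ, Fintype.card_fin, nsmul_eq_mul]
  ring

/-- The variance along the first axis. -/
noncomputable def Va (a c d S R : ℝ) : ℝ := a + c*S^2 + d*R^2 - (a + c*S - d*R)^2

noncomputable def KK (a c d S R : ℝ) (t u : Fin 5) : ℝ :=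
  Va a c d S R * (wv S R t 0 * wv S R u 0) + c*(1-S^2) * (wv S R t 1 * wv S R u 1)
    + d*(1-R^2) * (wv S R t 2 * wv S R u 2)

theorem centered_dot {n n0 k1 k2 : ℕ} (hn : 0 < n) (hsum : n0 + k1 + k1 + k2 + k2 = n)
    {τ : Fin n → Fin 5} (hτ : ∀ f : Fin 5 → ℝ,
      ∑ i, f (τ i) = n0*f 0 + k1*f 1 + k1*f 2 + k2*f 3 + k2*f 4)
    {a c d S R : ℝ} (ha : (n0:ℝ) = a*n) (hc : (k1:ℝ) = c/2*n) (hd : (k2:ℝ) = d/2*n)
    (hS : S^2 ≤ 1) (hR : R^2 ≤ 1) (i j : Fin n) :
    (centering n).mulVec (gram τ S R i) ⬝ᵥ (centering n).mulVec (gram τ S R j)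
      = n * KK a c d S R (τ i) (τ j) := by
  have hn' : (n:ℝ) ≠ 0 := by positivity
  have hacd : a = 1 - c - d := by
    have h1 : (n0:ℝ) + k1 + k1 + k2 + k2 = n := by exact_mod_cast hsum
    rw [ha, hc, hd] at h1
    have h2 : (a + c + d - 1)*n = 0 := by linarith
    rcases mul_eq_zero.mp h2 with h | h
    · linarith
    · exact absurd h hn'
  have hA : Real.sqrt (1-S^2)^2 = 1-S^2 := Real.sq_sqrt (by linarith)
  have hB : Real.sqrt (1-R^2)^2 = 1-R^2 := Real.sq_sqrt (by linarith)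
  have hmean : ∀ i : Fin n, (1/(n:ℝ)) * ∑ k, gram τ S R i k
      = wv S R (τ i) 0 * (a + c*S - d*R) := by
    intro i
    have h1 := hτ (fun t => ∑ l, wv S R (τ i) l * wv S R t l)
    have h2 : ∑ k, gram τ S R i k = ∑ k, (fun t => ∑ l, wv S R (τ i) l * wv S R t l) (τ k) := rfl
    rw [h2, h1, ha, hc, hd]
    simp only [Fin.sum_univ_three]
    set p0 := wv S R (τ i) 0
    set p1 := wv S R (τ i) 1
    set p2 := wv S R (τ i) 2
    simp only [wv, Matrix.cons_val_zero, Matrix.cons_val_one, Matrix.cons_val]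
    field_simp
    ring
  have h3 : (centering n).mulVec (gram τ S R i) ⬝ᵥ (centering n).mulVec (gram τ S R j)
      = ∑ k, (fun t => (∑ l, wv S R (τ i) l * wv S R t l - wv S R (τ i) 0 * (a + c*S - d*R))
        * (∑ l, wv S R (τ j) l * wv S R t l - wv S R (τ j) 0 * (a + c*S - d*R))) (τ k) := by
    unfold dotProduct
    refine Finset.sum_congr rfl fun k _ => ?_
    rw [centering_apply, centering_apply, hmean i, hmean j]
    rfl
  rw [h3, hτ (fun t => (∑ l, wv S R (τ i) l * wv S R t l - wv S R (τ i) 0 * (a + c*S - d*R))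
        * (∑ l, wv S R (τ j) l * wv S R t l - wv S R (τ j) 0 * (a + c*S - d*R))), ha, hc, hd]
  unfold KK Va
  simp only [Fin.sum_univ_three]
  generalize wv S R (τ i) 0 = p0
  generalize wv S R (τ i) 1 = p1
  generalize wv S R (τ i) 2 = p2
  generalize wv S R (τ j) 0 = q0
  generalize wv S R (τ j) 1 = q1
  generalize wv S R (τ j) 2 = q2
  simp only [wv, Matrix.cons_val_zero, Matrix.cons_val_one, Matrix.cons_val]
  generalize Real.sqrt (1-S^2) = A at hA ⊢
  generalize Real.sqrt (1-R^2) = B at hB ⊢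
  rw [hacd]
  linear_combination (n*c*p1*q1)*hA + (n*d*p2*q2)*hB

/-- One step of the correlation map on the family. -/
theorem corrMap_gram {n n0 k1 k2 : ℕ} (hn : 0 < n) (hsum : n0 + k1 + k1 + k2 + k2 = n)
    {τ : Fin n → Fin 5} (hτ : ∀ f : Fin 5 → ℝ,
      ∑ i, f (τ i) = n0*f 0 + k1*f 1 + k1*f 2 + k2*f 3 + k2*f 4)
    {a c d S R : ℝ} (ha : (n0:ℝ) = a*n) (hc : (k1:ℝ) = c/2*n) (hd : (k2:ℝ) = d/2*n)
    (hS : S^2 < 1) (hR : R^2 < 1) (hV : 0 < Va a c d S R) (hcp : 0 < c) (hdp : 0 < d) :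
    (∀ i, (centering n).mulVec (gram τ S R i) ≠ 0) ∧
    corrMap (gram τ S R) = gram τ
      (S*Real.sqrt (Va a c d S R)/Real.sqrt (S^2*Va a c d S R + c*(1-S^2)^2))
      (R*Real.sqrt (Va a c d S R)/Real.sqrt (R^2*Va a c d S R + d*(1-R^2)^2)) := by
  set V := Va a c d S R with hVdef
  have hn' : (0:ℝ) < n := by positivity
  have hE1 : 0 < S^2*V + c*(1-S^2)^2 := by
    have : 0 < 1-S^2 := by linarith
    positivity
  have hE2 : 0 < R^2*V + d*(1-R^2)^2 := by
    have : 0 < 1-R^2 := by linarith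
    positivity
  have hA : Real.sqrt (1-S^2)^2 = 1-S^2 := Real.sq_sqrt (by linarith)
  have hB : Real.sqrt (1-R^2)^2 = 1-R^2 := Real.sq_sqrt (by linarith)
  set S' := S*Real.sqrt V/Real.sqrt (S^2*V + c*(1-S^2)^2) with hS'
  set R' := R*Real.sqrt V/Real.sqrt (R^2*V + d*(1-R^2)^2) with hR'
  have hVs : Real.sqrt V^2 = V := Real.sq_sqrt hV.le
  have hE1s : Real.sqrt (S^2*V + c*(1-S^2)^2)^2 = S^2*V + c*(1-S^2)^2 := Real.sq_sqrt hE1.le
  have hE2s : Real.sqrt (R^2*V + d*(1-R^2)^2)^2 = R^2*V + d*(1-R^2)^2 := Real.sq_sqrt hE2.le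
  have hE1p : 0 < Real.sqrt (S^2*V + c*(1-S^2)^2) := Real.sqrt_pos.mpr hE1
  have hE2p : 0 < Real.sqrt (R^2*V + d*(1-R^2)^2) := Real.sqrt_pos.mpr hE2
  have hc2 : Real.sqrt (c*(1-S^2))^2 = c*(1-S^2) :=
    Real.sq_sqrt (mul_nonneg hcp.le (by linarith))
  have hd2 : Real.sqrt (d*(1-R^2))^2 = d*(1-R^2) :=
    Real.sq_sqrt (mul_nonneg hdp.le (by linarith))
  have hSS : Real.sqrt (1-S'^2)
      = Real.sqrt (c*(1-S^2)) * Real.sqrt (1-S^2) / Real.sqrt (S^2*V + c*(1-S^2)^2) := by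
    have : 1 - S'^2
        = (Real.sqrt (c*(1-S^2)) * Real.sqrt (1-S^2) / Real.sqrt (S^2*V + c*(1-S^2)^2))^2 := by
      rw [hS', div_pow, div_pow, mul_pow, mul_pow, hVs, hE1s, hc2, hA]
      field_simp
      ring
    rw [this, Real.sqrt_sq (by positivity)]
  have hRR : Real.sqrt (1-R'^2)
      = Real.sqrt (d*(1-R^2)) * Real.sqrt (1-R^2) / Real.sqrt (R^2*V + d*(1-R^2)^2) := by
    have : 1 - R'^2
        = (Real.sqrt (d*(1-R^2)) * Real.sqrt (1-R^2) / Real.sqrt (R^2*V + d*(1-R^2)^2))^2 := by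
      rw [hR', div_pow, div_pow, mul_pow, mul_pow, hVs, hE2s, hd2, hB]
      field_simp
      ring
    rw [this, Real.sqrt_sq (by positivity)]
  -- the normalising constants
  have hK : ∀ t : Fin 5, 0 < KK a c d S R t t ∧
      wv S' R' t 0 = Real.sqrt V * wv S R t 0 / Real.sqrt (KK a c d S R t t) ∧
      wv S' R' t 1 = Real.sqrt (c*(1-S^2)) * wv S R t 1 / Real.sqrt (KK a c d S R t t) ∧
      wv S' R' t 2 = Real.sqrt (d*(1-R^2)) * wv S R t 2 / Real.sqrt (KK a c d S R t t) := by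
    have k0 : KK a c d S R 0 0 = V := by
      simp [KK, wv, ← hVdef]
    have k1' : KK a c d S R 1 1 = S^2*V + c*(1-S^2)^2 := by
      simp only [KK, wv, ← hVdef, Matrix.cons_val_zero, Matrix.cons_val_one, Matrix.cons_val]
      linear_combination c*(1-S^2)*hA
    have k2' : KK a c d S R 2 2 = S^2*V + c*(1-S^2)^2 := by
      simp only [KK, wv, ← hVdef, Matrix.cons_val_zero, Matrix.cons_val_one, Matrix.cons_val]
      linear_combination c*(1-S^2)*hA
    have k3' : KK a c d S R 3 3 = R^2*V + d*(1-R^2)^2 := by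
      simp only [KK, wv, ← hVdef, Matrix.cons_val_zero, Matrix.cons_val_one, Matrix.cons_val]
      linear_combination d*(1-R^2)*hB
    have k4' : KK a c d S R 4 4 = R^2*V + d*(1-R^2)^2 := by
      simp only [KK, wv, ← hVdef, Matrix.cons_val_zero, Matrix.cons_val_one, Matrix.cons_val]
      linear_combination d*(1-R^2)*hB
    have hVp : Real.sqrt V ≠ 0 := (Real.sqrt_pos.mpr hV).ne'
    intro t
    fin_cases t
    · refine ⟨by simpa [k0] using hV, ?_, ?_, ?_⟩
      · change wv S' R' 0 0 = Real.sqrt V * wv S R 0 0 / Real.sqrt (KK a c d S R 0 0)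
        rw [k0]
        simp [wv, hVp]
      · change wv S' R' 0 1 = Real.sqrt (c*(1-S^2)) * wv S R 0 1 / Real.sqrt (KK a c d S R 0 0)
        simp [wv]
      · change wv S' R' 0 2 = Real.sqrt (d*(1-R^2)) * wv S R 0 2 / Real.sqrt (KK a c d S R 0 0)
        simp [wv]
    · refine ⟨by simpa [k1'] using hE1, ?_, ?_, ?_⟩
      · change wv S' R' 1 0 = Real.sqrt V * wv S R 1 0 / Real.sqrt (KK a c d S R 1 1)
        rw [k1']
        simp only [wv, Matrix.cons_val_zero, Matrix.cons_val_one, Matrix.cons_val]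
        rw [hS']; ring
      · change wv S' R' 1 1 = Real.sqrt (c*(1-S^2)) * wv S R 1 1 / Real.sqrt (KK a c d S R 1 1)
        rw [k1']
        simp only [wv, Matrix.cons_val_zero, Matrix.cons_val_one, Matrix.cons_val]
        rw [hSS]
      · change wv S' R' 1 2 = Real.sqrt (d*(1-R^2)) * wv S R 1 2 / Real.sqrt (KK a c d S R 1 1)
        simp [wv]
    · refine ⟨by simpa [k2'] using hE1, ?_, ?_, ?_⟩
      · change wv S' R' 2 0 = Real.sqrt V * wv S R 2 0 / Real.sqrt (KK a c d S R 2 2)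
        rw [k2']
        simp only [wv, Matrix.cons_val_zero, Matrix.cons_val_one, Matrix.cons_val]
        rw [hS']; ring
      · change wv S' R' 2 1 = Real.sqrt (c*(1-S^2)) * wv S R 2 1 / Real.sqrt (KK a c d S R 2 2)
        rw [k2']
        simp only [wv, Matrix.cons_val_zero, Matrix.cons_val_one, Matrix.cons_val]
        rw [hSS]; ring
      · change wv S' R' 2 2 = Real.sqrt (d*(1-R^2)) * wv S R 2 2 / Real.sqrt (KK a c d S R 2 2)
        simp [wv]
    · refine ⟨by simpa [k3'] using hE2, ?_, ?_, ?_⟩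
      · change wv S' R' 3 0 = Real.sqrt V * wv S R 3 0 / Real.sqrt (KK a c d S R 3 3)
        rw [k3']
        simp only [wv, Matrix.cons_val_zero, Matrix.cons_val_one, Matrix.cons_val]
        rw [hR']; ring
      · change wv S' R' 3 1 = Real.sqrt (c*(1-S^2)) * wv S R 3 1 / Real.sqrt (KK a c d S R 3 3)
        simp [wv]
      · change wv S' R' 3 2 = Real.sqrt (d*(1-R^2)) * wv S R 3 2 / Real.sqrt (KK a c d S R 3 3)
        rw [k3']
        simp only [wv, Matrix.cons_val_zero, Matrix.cons_val_one, Matrix.cons_val]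
        rw [hRR]
    · refine ⟨by simpa [k4'] using hE2, ?_, ?_, ?_⟩
      · change wv S' R' 4 0 = Real.sqrt V * wv S R 4 0 / Real.sqrt (KK a c d S R 4 4)
        rw [k4']
        simp only [wv, Matrix.cons_val_zero, Matrix.cons_val_one, Matrix.cons_val]
        rw [hR']; ring
      · change wv S' R' 4 1 = Real.sqrt (c*(1-S^2)) * wv S R 4 1 / Real.sqrt (KK a c d S R 4 4)
        simp [wv]
      · change wv S' R' 4 2 = Real.sqrt (d*(1-R^2)) * wv S R 4 2 / Real.sqrt (KK a c d S R 4 4)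
        rw [k4']
        simp only [wv, Matrix.cons_val_zero, Matrix.cons_val_one, Matrix.cons_val]
        rw [hRR]; ring
  constructor
  · intro i h0
    have h1 := centered_dot hn hsum hτ ha hc hd hS.le hR.le i i
    rw [h0, zero_dotProduct] at h1
    have := mul_pos hn' (hK (τ i)).1
    linarith
  · ext i j
    have h1 : corrMap (gram τ S R) i j = (n*KK a c d S R (τ i) (τ j)) /
        (Real.sqrt (n*KK a c d S R (τ i) (τ i)) * Real.sqrt (n*KK a c d S R (τ j) (τ j))) := by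
      unfold corrMap
      rw [Matrix.of_apply, centered_dot hn hsum hτ ha hc hd hS.le hR.le i j,
        centered_dot hn hsum hτ ha hc hd hS.le hR.le i i,
        centered_dot hn hsum hτ ha hc hd hS.le hR.le j j]
    have h2 : gram τ S' R' i j = ∑ l, wv S' R' (τ i) l * wv S' R' (τ j) l := rfl
    obtain ⟨i0, i1, i2, i3⟩ := hK (τ i)
    obtain ⟨j0, j1, j2, j3⟩ := hK (τ j)
    rw [h1, h2, Fin.sum_univ_three, i1, i2, i3, j1, j2, j3]
    have hnn : Real.sqrt (n:ℝ) * Real.sqrt (n:ℝ) = n := Real.mul_self_sqrt hn'.le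
    have hpi : 0 < Real.sqrt (KK a c d S R (τ i) (τ i)) := Real.sqrt_pos.mpr i0
    have hpj : 0 < Real.sqrt (KK a c d S R (τ j) (τ j)) := Real.sqrt_pos.mpr j0
    have hns : 0 < Real.sqrt (n:ℝ) := Real.sqrt_pos.mpr hn'
    rw [Real.sqrt_mul hn'.le, Real.sqrt_mul hn'.le]
    have hKij : KK a c d S R (τ i) (τ j) = V * (wv S R (τ i) 0 * wv S R (τ j) 0)
        + c*(1-S^2) * (wv S R (τ i) 1 * wv S R (τ j) 1)
        + d*(1-R^2) * (wv S R (τ i) 2 * wv S R (τ j) 2) := rfl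
    rw [hKij]
    have e1 : (n:ℝ)*(V * (wv S R (τ i) 0 * wv S R (τ j) 0)
        + c*(1-S^2) * (wv S R (τ i) 1 * wv S R (τ j) 1)
        + d*(1-R^2) * (wv S R (τ i) 2 * wv S R (τ j) 2)) /
        (Real.sqrt n * Real.sqrt (KK a c d S R (τ i) (τ i)) *
          (Real.sqrt n * Real.sqrt (KK a c d S R (τ j) (τ j))))
        = (V * (wv S R (τ i) 0 * wv S R (τ j) 0)
        + c*(1-S^2) * (wv S R (τ i) 1 * wv S R (τ j) 1)
        + d*(1-R^2) * (wv S R (τ i) 2 * wv S R (τ j) 2)) /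
          (Real.sqrt (KK a c d S R (τ i) (τ i)) * Real.sqrt (KK a c d S R (τ j) (τ j))) := by
      rw [div_eq_div_iff (by positivity) (by positivity)]
      linear_combination (-(V * (wv S R (τ i) 0 * wv S R (τ j) 0)
        + c*(1-S^2) * (wv S R (τ i) 1 * wv S R (τ j) 1)
        + d*(1-R^2) * (wv S R (τ i) 2 * wv S R (τ j) 2)) *
          (Real.sqrt (KK a c d S R (τ i) (τ i)) * Real.sqrt (KK a c d S R (τ j) (τ j)))) * hnn
    rw [e1, div_eq_iff (by positivity)]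
    have hpi' := hpi.ne'
    have hpj' := hpj.ne'
    field_simp
    rw [hVs, hc2, hd2]
    ring

/-- The planar map in the original coordinates. -/
theorem link {e g m : ℝ} {z : Pt} (hG : Good (e, g, m) z) :
    (e*z.1)^2 < 1 ∧ (e*rho e z.1 z.2)^2 < 1 ∧
    0 < Va (aM e g m) (cM e g m) (dM e g) (e*z.1) (e*rho e z.1 z.2) ∧
    (e*z.1)*Real.sqrt (Va (aM e g m) (cM e g m) (dM e g) (e*z.1) (e*rho e z.1 z.2)) /
      Real.sqrt ((e*z.1)^2*Va (aM e g m) (cM e g m) (dM e g) (e*z.1) (e*rho e z.1 z.2)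
        + cM e g m*(1-(e*z.1)^2)^2) = e*(TT (e, g, m) z).1 ∧
    (e*rho e z.1 z.2)*Real.sqrt (Va (aM e g m) (cM e g m) (dM e g) (e*z.1) (e*rho e z.1 z.2)) /
      Real.sqrt ((e*rho e z.1 z.2)^2*Va (aM e g m) (cM e g m) (dM e g) (e*z.1) (e*rho e z.1 z.2)
        + dM e g*(1-(e*rho e z.1 z.2)^2)^2)
      = e*rho e (TT (e, g, m) z).1 (TT (e, g, m) z).2 := by
  obtain ⟨h1, h2, hV, hD1, hD2, hc, hd, ha, hs, hr⟩ := hG
  simp only at h1 h2 hV hD1 hD2 hc hd ha hs hr
  have hVa : Va (aM e g m) (cM e g m) (dM e g) (e*z.1) (e*rho e z.1 z.2) = VV e g m z.1 z.2 := by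
    rw [VV_eq]; rfl
  rw [hVa]
  have hE1 : (e*z.1)^2*VV e g m z.1 z.2 + cM e g m*(1-(e*z.1)^2)^2 = D1 e g m z.1 z.2 := by
    unfold D1; ring
  have hE2 : (e*rho e z.1 z.2)^2*VV e g m z.1 z.2 + dM e g*(1-(e*rho e z.1 z.2)^2)^2
      = D2 e g m z.1 z.2 := by
    unfold D2; ring
  rw [hE1, hE2]
  set V := VV e g m z.1 z.2 with hVd
  set E1 := D1 e g m z.1 z.2 with hE1d
  set E2 := D2 e g m z.1 z.2 with hE2d
  have p1 : 0 < Real.sqrt V := Real.sqrt_pos.mpr hV
  have p2 : 0 < Real.sqrt E1 := Real.sqrt_pos.mpr hD1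
  have p3 : 0 < Real.sqrt E2 := Real.sqrt_pos.mpr hD2
  have q1 : 1 + e^2*G1 e g m z.1 z.2 = V/E1 := by
    have := VV_sub e g m z.1 z.2
    unfold G1
    rw [← hE1d]
    rw [← hE1d, ← hVd] at this
    field_simp
    linarith
  have q2 : 1 + e^3*H1 e g m z.1 z.2 = E1/E2 := by
    have := D_sub e g m z.1 z.2
    unfold H1
    rw [← hE2d]
    rw [← hE1d, ← hE2d] at this
    field_simp
    linarith
  set q := Real.sqrt V/Real.sqrt E1 with hq
  set p := Real.sqrt E1/Real.sqrt E2 with hp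
  have hq0 : 0 < q := by positivity
  have hp0 : 0 < p := by positivity
  have hqs : Real.sqrt (V/E1) = q := Real.sqrt_div hV.le _
  have hps : Real.sqrt (E1/E2) = p := Real.sqrt_div hD1.le _
  have hq2 : q^2 = V/E1 := by rw [← hqs, Real.sq_sqrt (by positivity)]
  have hp2 : p^2 = E1/E2 := by rw [← hps, Real.sq_sqrt (by positivity)]
  have w1 : (TT (e, g, m) z).1 = z.1*q := by
    have : (TT (e, g, m) z).1 = z.1 + e^2*Gs e g m z.1 z.2 := rfl
    rw [this]
    unfold Gs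
    rw [q1, hqs]
    have h3 : e^2*G1 e g m z.1 z.2 = q^2 - 1 := by rw [hq2]; linarith
    have h4 : e^2*(z.1*G1 e g m z.1 z.2/(1+q)) = z.1*(e^2*G1 e g m z.1 z.2)/(1+q) := by ring
    rw [h4, h3]
    field_simp
    ring
  have w2 : 1 - 8*e*(TT (e, g, m) z).2 = (1-8*e*z.2)*p := by
    have : (TT (e, g, m) z).2 = z.2 + e^2*Gv e g m z.1 z.2 := rfl
    rw [this]
    unfold Gv
    rw [q2, hps]
    have h3 : e^3*H1 e g m z.1 z.2 = p^2 - 1 := by rw [hp2]; linarith
    have h4 : 1 - 8*e*(z.2 + e^2*(-(1-8*e*z.2)*H1 e g m z.1 z.2/(8*(1+p))))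
        = (1 - 8*e*z.2) + (1-8*e*z.2)*(e^3*H1 e g m z.1 z.2)/(1+p) := by
      field_simp
      ring
    rw [h4, h3]
    field_simp
    ring
  refine ⟨?_, ?_, hV, ?_, ?_⟩
  · rw [mul_pow]; exact hs
  · rw [mul_pow]; exact hr
  · rw [w1, hq]; ring
  · unfold rho
    rw [w2, w1, hq, hp]
    field_simp

theorem gram_posSemidef {n : ℕ} (τ : Fin n → Fin 5) (S R : ℝ) : (gram τ S R).PosSemidef := by
  have h : gram τ S R = (Matrix.of fun (i : Fin n) (l : Fin 3) => wv S R (τ i) l) *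
      (Matrix.of fun (i : Fin n) (l : Fin 3) => wv S R (τ i) l).conjTranspose := by
    ext i j
    simp [gram, Matrix.mul_apply]
  rw [h]
  exact Matrix.posSemidef_self_mul_conjTranspose _

theorem wv_norm {S R : ℝ} (hS : S^2 < 1) (hR : R^2 < 1) (t : Fin 5) :
    ∑ l, wv S R t l * wv S R t l = 1 := by
  have hA : Real.sqrt (1-S^2)^2 = 1-S^2 := Real.sq_sqrt (by linarith)
  have hB : Real.sqrt (1-R^2)^2 = 1-R^2 := Real.sq_sqrt (by linarith)
  rw [Fin.sum_univ_three]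
  fin_cases t <;>
    simp only [wv, Matrix.cons_val_zero, Matrix.cons_val_one, Matrix.cons_val, Fin.mk_one,
      Fin.zero_eta, Fin.reduceFinMk] <;> nlinarith

theorem gram_entry {n : ℕ} {τ : Fin n → Fin 5} {S R : ℝ} (hS : S^2 < 1) (hR : R^2 < 1)
    (i j : Fin n) : |gram τ S R i j| ≤ 1 := by
  have h1 := wv_norm hS hR (τ i)
  have h2 := wv_norm hS hR (τ j)
  have h3 : gram τ S R i j = ∑ l, wv S R (τ i) l * wv S R (τ j) l := rfl
  rw [Fin.sum_univ_three] at h1 h2 h3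
  rw [h3, abs_le]
  constructor
  · nlinarith [sq_nonneg (wv S R (τ i) 0 + wv S R (τ j) 0), sq_nonneg (wv S R (τ i) 1 + wv S R (τ j) 1),
      sq_nonneg (wv S R (τ i) 2 + wv S R (τ j) 2)]
  · nlinarith [sq_nonneg (wv S R (τ i) 0 - wv S R (τ j) 0), sq_nonneg (wv S R (τ i) 1 - wv S R (τ j) 1),
      sq_nonneg (wv S R (τ i) 2 - wv S R (τ j) 2)]

/-- The orbit of the configuration follows the planar map. -/
theorem orbit {n n0 k1 k2 : ℕ} (hn : 0 < n) (hsum : n0 + k1 + k1 + k2 + k2 = n)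
    {τ : Fin n → Fin 5} (hτ : ∀ f : Fin 5 → ℝ,
      ∑ i, f (τ i) = n0*f 0 + k1*f 1 + k1*f 2 + k2*f 3 + k2*f 4)
    {e g m : ℝ} (ha : (n0:ℝ) = aM e g m*n) (hc : (k1:ℝ) = cM e g m/2*n)
    (hd : (k2:ℝ) = dM e g/2*n) {z0 : Pt}
    (hG : ∀ k, Good (e, g, m) ((TT (e, g, m))^[k] z0)) (k : ℕ) :
    corrMap^[k] (gram τ (e*z0.1) (e*rho e z0.1 z0.2))
      = gram τ (e*((TT (e, g, m))^[k] z0).1)
        (e*rho e ((TT (e, g, m))^[k] z0).1 ((TT (e, g, m))^[k] z0).2) := by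
  induction k with
  | zero => rfl
  | succ k ih =>
    rw [Function.iterate_succ_apply', ih, Function.iterate_succ_apply']
    obtain ⟨l1, l2, l3, l4, l5⟩ := link (hG k)
    have hcp : 0 < cM e g m := (hG k).2.2.2.2.2.1
    have hdp : 0 < dM e g := (hG k).2.2.2.2.2.2.1
    rw [(corrMap_gram hn hsum hτ ha hc hd l1 l2 l3 hcp hdp).2, l4, l5]

theorem gram_mem {n n0 k1 k2 : ℕ} (hn : 0 < n) (hsum : n0 + k1 + k1 + k2 + k2 = n)
    {τ : Fin n → Fin 5} (hτ : ∀ f : Fin 5 → ℝ,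
      ∑ i, f (τ i) = n0*f 0 + k1*f 1 + k1*f 2 + k2*f 3 + k2*f 4)
    {e g m : ℝ} (ha : (n0:ℝ) = aM e g m*n) (hc : (k1:ℝ) = cM e g m/2*n)
    (hd : (k2:ℝ) = dM e g/2*n) {z : Pt} (hG : Good (e, g, m) z) :
    gram τ (e*z.1) (e*rho e z.1 z.2) ∈ CorrND n := by
  obtain ⟨l1, l2, l3, l4, l5⟩ := link hG
  refine ⟨gram_posSemidef _ _ _, fun i => wv_norm l1 l2 (τ i), ?_⟩
  exact (corrMap_gram hn hsum hτ ha hc hd l1 l2 l3 hG.2.2.2.2.2.1 hG.2.2.2.2.2.2.1).1

theorem exists_type {n n0 k1 k2 : ℕ} {τ : Fin n → Fin 5} (hτ : ∀ f : Fin 5 → ℝ,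
      ∑ i, f (τ i) = n0*f 0 + k1*f 1 + k1*f 2 + k2*f 3 + k2*f 4) (t : Fin 5)
    (ht : (n0:ℝ)*(if (0 : Fin 5) = t then 1 else 0) + k1*(if (1 : Fin 5) = t then 1 else 0)
      + k1*(if (2 : Fin 5) = t then 1 else 0) + k2*(if (3 : Fin 5) = t then 1 else 0)
      + k2*(if (4 : Fin 5) = t then 1 else 0) ≠ 0) : ∃ i, τ i = t := by
  by_contra hcon
  push Not at hcon
  have h := hτ (fun u => if u = t then 1 else 0)
  rw [Finset.sum_eq_zero (fun i _ => by simp [hcon i])] at h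
  exact ht h.symm

/-- The embedding of the planar family. -/
noncomputable def Phi {n : ℕ} (τ : Fin n → Fin 5) (e : ℝ) (z : Pt) : Matrix (Fin n) (Fin n) ℝ :=
  gram τ (e*z.1) (e*rho e z.1 z.2)

theorem wv_cont (e : ℝ) (t : Fin 5) (l : Fin 3) :
    Continuous (fun z : Pt => wv (e*z.1) (e*rho e z.1 z.2) t l) := by
  unfold rho
  fin_cases t <;> fin_cases l <;>
    simp only [wv, Matrix.cons_val_zero, Matrix.cons_val_one, Matrix.cons_val, Fin.mk_one,
      Fin.zero_eta, Fin.reduceFinMk] <;> fun_prop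

theorem Phi_cont {n : ℕ} (τ : Fin n → Fin 5) (e : ℝ) : Continuous (Phi τ e) := by
  refine continuous_pi fun i => continuous_pi fun j => ?_
  have : (fun z : Pt => Phi τ e z i j) = fun z : Pt =>
      ∑ l, wv (e*z.1) (e*rho e z.1 z.2) (τ i) l * wv (e*z.1) (e*rho e z.1 z.2) (τ j) l := rfl
  rw [this]
  exact continuous_finsetSum _ fun l _ => (wv_cont e (τ i) l).mul (wv_cont e (τ j) l)

theorem Phi_inj {n : ℕ} {τ : Fin n → Fin 5} {e : ℝ} (he : 0 < e) {i0 i1 i3 : Fin n}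
    (hi0 : τ i0 = 0) (hi1 : τ i1 = 1) (hi3 : τ i3 = 3) : Set.InjOn (Phi τ e) BB := by
  intro z hz z' hz' h
  have h1 : Phi τ e z i0 i1 = Phi τ e z' i0 i1 := by rw [h]
  have h2 : Phi τ e z i0 i3 = Phi τ e z' i0 i3 := by rw [h]
  simp only [Phi, gram, Matrix.of_apply, hi0, hi1, hi3, wv, Fin.sum_univ_three] at h1 h2
  simp at h1 h2
  have hz1 := BB_pos hz
  have h3 : z.1 = z'.1 := by
    rcases h1 with h | h
    · exact h
    · exact absurd h he.ne'
  have h4 : rho e z.1 z.2 = rho e z'.1 z'.2 := by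
    rcases h2 with h | h
    · exact h
    · exact absurd h he.ne'
  refine Prod.ext h3 ?_
  unfold rho at h4
  rw [← h3] at h4
  have h5 := mul_left_cancel₀ hz1.ne' h4
  have h6 : 8*e*(z.2 - z'.2) = 0 := by linarith
  rcases mul_eq_zero.mp h6 with h | h
  · exact absurd h (by positivity)
  · linarith

/-- A cluster point of the image sequence comes from a cluster point. -/
theorem cluster_lift {X : Type*} [TopologicalSpace X] [T2Space X] {K : Set Pt}
    (hK : IsCompact K) {F : Pt → X} (hF : Continuous F) {z : ℕ → Pt} (hz : ∀ k, z k ∈ K) {L : X}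
    (hL : MapClusterPt L atTop (fun k => F (z k))) :
    ∃ w ∈ K, MapClusterPt w atTop z ∧ F w = L := by
  rw [mapClusterPt_iff_ultrafilter] at hL
  obtain ⟨V, hV, hLim⟩ := hL
  obtain ⟨w, hw, hVw⟩ := hK.ultrafilter_le_nhds (V.map z) (by
    rw [le_principal_iff]
    exact Filter.mem_map.mpr (Filter.univ_mem' hz))
  have hzw : Tendsto z V (𝓝 w) := hVw
  refine ⟨w, hw, mapClusterPt_iff_ultrafilter.mpr ⟨V, hV, hzw⟩, ?_⟩
  exact tendsto_nhds_unique ((hF.tendsto w).comp hzw) hLim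

/-- Cluster points are mapped to cluster points. -/
theorem cluster_step {T : Pt → Pt} {z0 w : Pt} (hT : ContinuousAt T w)
    (hw : MapClusterPt w atTop (fun k => T^[k] z0)) :
    MapClusterPt (T w) atTop (fun k => T^[k] z0) := by
  have h1 : MapClusterPt (T w) atTop (T ∘ (fun k => T^[k] z0)) := hw.continuousAt_comp hT
  have h2 : T ∘ (fun k => T^[k] z0) = (fun k => T^[k] z0) ∘ (fun k => k + 1) := by
    funext k
    simp only [Function.comp_apply, Function.iterate_succ_apply']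
  rw [h2] at h1
  exact MapClusterPt.of_comp (tendsto_add_atTop_nat 1) h1

/-- Nontrivial omega-limit sets in a fixed dimension. -/
theorem omega_family {M : ℕ} (hM : 1 ≤ M) {n n0 k1 k2 : ℕ} (hn : 0 < n)
    (hsum : n0 + k1 + k1 + k2 + k2 = n)
    {τ : Fin n → Fin 5} (hτ : ∀ f : Fin 5 → ℝ,
      ∑ i, f (τ i) = n0*f 0 + k1*f 1 + k1*f 2 + k2*f 3 + k2*f 4)
    (hn0 : 0 < n0) (hk1 : 0 < k1) (hk2 : 0 < k2)
    {e g m : ℝ} (he : 0 < e) (ha : (n0:ℝ) = aM e g m*n) (hc : (k1:ℝ) = cM e g m/2*n)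
    (hd : (k2:ℝ) = dM e g/2*n)
    (hA : ∀ z ∈ BB, TT (e, g, m) z ∈ BB ∧ Good (e, g, m) z ∧ ContinuousAt (TT (e, g, m)) z)
    (hP : ∀ p, 1 ≤ p → p ≤ M → ∀ z ∈ BB, (TT (e, g, m))^[p] z = z → TT (e, g, m) z = z)
    (hO : ∀ z0 ∈ U0, ∀ w, MapClusterPt w atTop (fun k => (TT (e, g, m))^[k] z0) →
      TT (e, g, m) w ≠ w) :
    Set.InjOn (Phi τ e) U0 ∧ ∀ u ∈ U0, (∀ k, corrMap^[k] (Phi τ e u) ∈ CorrND n) ∧
      (¬ ∃ L, Tendsto (fun k => corrMap^[k] (Phi τ e u)) atTop (𝓝 L)) ∧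
      omegaSet (Phi τ e u) ⊆ CorrND n ∧ M < (omegaSet (Phi τ e u)).encard ∧
      ∀ L ∈ omegaSet (Phi τ e u), ∀ p, 1 ≤ p → p ≤ M → corrMap^[p] L ≠ L := by
  have hn0' : (n0:ℝ) ≠ 0 := by positivity
  have hk1' : (k1:ℝ) ≠ 0 := by positivity
  have hk2' : (k2:ℝ) ≠ 0 := by positivity
  obtain ⟨i0, hi0⟩ := exists_type hτ 0 (by simpa using hn0')
  obtain ⟨i1, hi1⟩ := exists_type hτ 1 (by simpa using hk1')
  obtain ⟨i3, hi3⟩ := exists_type hτ 3 (by simpa using hk2')
  have hinj : Set.InjOn (Phi τ e) BB := Phi_inj he hi0 hi1 hi3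
  set T := TT (e, g, m) with hTdef
  have hBB : ∀ z ∈ BB, ∀ k, T^[k] z ∈ BB := by
    intro z hz k
    induction k with
    | zero => exact hz
    | succ k ih => rw [Function.iterate_succ_apply']; exact (hA _ ih).1
  have horb : ∀ z ∈ BB, ∀ k, corrMap^[k] (Phi τ e z) = Phi τ e (T^[k] z) := fun z hz k =>
    orbit hn hsum hτ ha hc hd (fun j => (hA _ (hBB z hz j)).2.1) k
  have hmem : ∀ z ∈ BB, Phi τ e z ∈ CorrND n := fun z hz =>
    gram_mem hn hsum hτ ha hc hd (hA z hz).2.1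
  refine ⟨hinj.mono U0_sub, fun u hu => ?_⟩
  have huB : u ∈ BB := U0_sub hu
  have hlift : ∀ L ∈ omegaSet (Phi τ e u), ∃ w ∈ BB,
      MapClusterPt w atTop (fun k => T^[k] u) ∧ Phi τ e w = L := by
    intro L hL
    have hL' : MapClusterPt L atTop (fun k : ℕ => corrMap^[k] (Phi τ e u)) := hL
    have h1 : (fun k : ℕ => corrMap^[k] (Phi τ e u)) = fun k => Phi τ e (T^[k] u) :=
      funext fun k => horb u huB k
    rw [h1] at hL'
    exact cluster_lift BB_compact (Phi_cont τ e) (hBB u huB) hL'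
  have hpush : ∀ w, MapClusterPt w atTop (fun k => T^[k] u) →
      Phi τ e w ∈ omegaSet (Phi τ e u) := by
    intro w hw
    have h1 : MapClusterPt (Phi τ e w) atTop (Phi τ e ∘ fun k => T^[k] u) :=
      hw.continuousAt_comp (Phi_cont τ e).continuousAt
    have h2 : (Phi τ e ∘ fun k => T^[k] u) = (fun k : ℕ => corrMap^[k] (Phi τ e u)) :=
      funext fun k => (horb u huB k).symm
    rw [h2] at h1
    exact h1
  have hno : ∀ w ∈ BB, MapClusterPt w atTop (fun k => T^[k] u) →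
      ∀ p, 1 ≤ p → p ≤ M → T^[p] w ≠ w := by
    intro w hwB hw p hp1 hpM hper
    exact hO u hu w hw (hP p hp1 hpM w hwB hper)
  obtain ⟨w, hwB, hw⟩ := BB_compact.exists_mapClusterPt_of_frequently
    (l := atTop) (f := fun k => T^[k] u) (Eventually.of_forall (hBB u huB)).frequently
  have hcl : ∀ j, MapClusterPt (T^[j] w) atTop (fun k => T^[k] u) := by
    intro j
    induction j with
    | zero => exact hw
    | succ j ih =>
      rw [Function.iterate_succ_apply']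
      exact cluster_step (hA _ (hBB w hwB j)).2.2 ih
  have hcard : M < (omegaSet (Phi τ e u)).encard := by
    have hsub : (fun j => Phi τ e (T^[j] w)) '' (Finset.range (M+1) : Set ℕ)
        ⊆ omegaSet (Phi τ e u) := by
      rintro _ ⟨j, _, rfl⟩
      exact hpush _ (hcl j)
    have key : ∀ i j : ℕ, i < j → j ≤ M → T^[i] w ≠ T^[j] w := by
      intro i j hij hjM heq
      have h1 : T^[j-i] (T^[i] w) = T^[i] w := by
        rw [← Function.iterate_add_apply, Nat.sub_add_cancel hij.le]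
        exact heq.symm
      exact hno _ (hBB w hwB i) (hcl i) (j-i) (by omega) (by omega) h1
    have hinjr : Set.InjOn (fun j => Phi τ e (T^[j] w)) (Finset.range (M+1) : Set ℕ) := by
      intro i hi j hj hij
      simp only [Finset.coe_range, Set.mem_Iio] at hi hj
      have h1 : T^[i] w = T^[j] w := hinj (hBB w hwB i) (hBB w hwB j) hij
      rcases lt_trichotomy i j with h | h | h
      · exact absurd h1 (key i j h (by omega))
      · exact h
      · exact absurd h1.symm (key j i h (by omega))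
    have h2 := Set.encard_le_encard hsub
    rw [hinjr.encard_image, Set.encard_coe_eq_coe_finsetCard, Finset.card_range] at h2
    refine lt_of_lt_of_le ?_ h2
    exact_mod_cast Nat.lt_succ_self M
  refine ⟨fun k => ?_, ?_, ?_, hcard, ?_⟩
  · rw [horb u huB k]
    exact hmem _ (hBB u huB k)
  · rintro ⟨L, hL⟩
    have hsub : omegaSet (Phi τ e u) ⊆ {L} := by
      intro L' hL'
      have hL'' : MapClusterPt L' atTop (fun k : ℕ => corrMap^[k] (Phi τ e u)) := hL'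
      rw [mapClusterPt_iff_ultrafilter] at hL''
      obtain ⟨V, hV, hlim⟩ := hL''
      exact tendsto_nhds_unique hlim (hL.mono_left hV)
    have h1 := (Set.encard_le_encard hsub).trans (Set.encard_singleton L).le
    have h2 : (1 : ℕ∞) ≤ M := by exact_mod_cast hM
    exact absurd (hcard.trans_le h1) (not_lt.mpr h2)
  · intro L hL
    obtain ⟨w', hw'B, -, rfl⟩ := hlift L hL
    exact hmem w' hw'B
  · intro L hL p hp1 hpM hper
    obtain ⟨w', hw'B, hw', rfl⟩ := hlift L hL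
    rw [horb w' hw'B p] at hper
    exact hno w' hw'B hw' p hp1 hpM (hinj (hBB w' hw'B p) hw'B hper)

/-- For every `M` and all sufficiently large `n` there is a two-parameter family of correlation
matrices without constant rows whose orbits do not converge; their omega-limit sets lie in
`C_n^nd`, have more than `M` points and contain no periodic point of period at most `M`. -/
theorem main (M : ℕ) : ∃ N : ℕ, ∀ n ≥ N,
    ∃ (U : Set (ℝ × ℝ)) (F : ℝ × ℝ → Matrix (Fin n) (Fin n) ℝ),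
      IsOpen U ∧ U.Nonempty ∧ Continuous F ∧ Set.InjOn F U ∧ ∀ u ∈ U,
        (∀ k, corrMap^[k] (F u) ∈ CorrND n) ∧
        (¬ ∃ L, Tendsto (fun k => corrMap^[k] (F u)) atTop (𝓝 L)) ∧
        omegaSet (F u) ⊆ CorrND n ∧ M < (omegaSet (F u)).encard ∧
        ∀ L ∈ omegaSet (F u), ∀ p, 1 ≤ p → p ≤ M → corrMap^[p] L ≠ L := by
  obtain ⟨e, g, m, he, hev⟩ := dynM' (M+1)
  obtain ⟨hw0, -, -⟩ := hev.self_of_nhds
  have h11 : ((1, 1) : Pt) ∈ BB := BB_mem_of (by norm_num) (by norm_num)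
  have hcs : 0 < cM e g m := (hw0 _ h11).2.1.2.2.2.2.2.1
  have hds : 0 < dM e g := (hw0 _ h11).2.1.2.2.2.2.2.2.1
  have hnat : Tendsto (fun n : ℕ => (n:ℝ)) atTop atTop := tendsto_natCast_atTop_atTop
  -- the approximating parameters
  let K1 : ℕ → ℕ := fun n => ⌊cM e g m/2*(n:ℝ)⌋₊
  let K2 : ℕ → ℕ := fun n => ⌊dM e g/2*(n:ℝ)⌋₊
  have t1 : Tendsto (fun n : ℕ => (K1 n : ℝ)/n) atTop (𝓝 (cM e g m/2)) :=
    (tendsto_nat_floor_mul_div_atTop (by positivity)).comp hnat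
  have t2 : Tendsto (fun n : ℕ => (K2 n : ℝ)/n) atTop (𝓝 (dM e g/2)) :=
    (tendsto_nat_floor_mul_div_atTop (by positivity)).comp hnat
  let gn : ℕ → ℝ := fun n => (2*((K2 n : ℝ)/n) - 1/4)/e^2
  let mn : ℕ → ℝ := fun n => (2*((K1 n : ℝ)/n) - 2*((K2 n : ℝ)/n))/e^3
  have hgn : Tendsto gn atTop (𝓝 g) := by
    have h := ((t2.const_mul 2).sub_const (1/4)).div_const (e^2)
    have e1 : (2*(dM e g/2) - 1/4)/e^2 = g := by
      unfold dM; field_simp; ring
    rw [e1] at h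
    exact h
  have hmn : Tendsto mn atTop (𝓝 m) := by
    have h := ((t1.const_mul 2).sub (t2.const_mul 2)).div_const (e^3)
    have e1 : (2*(cM e g m/2) - 2*(dM e g/2))/e^3 = m := by
      unfold cM dM; field_simp; ring
    rw [e1] at h
    exact h
  have hpair : Tendsto (fun n => (gn n, mn n)) atTop (𝓝 (g, m)) := hgn.prodMk_nhds hmn
  obtain ⟨N, hN⟩ := eventually_atTop.mp (hpair.eventually hev)
  refine ⟨max N 1, fun n hn => ?_⟩
  have hnN : N ≤ n := le_of_max_le_left hn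
  have hn1 : 0 < n := le_of_max_le_right hn
  have hnr : (0:ℝ) < n := by exact_mod_cast hn1
  obtain ⟨hA, hP, hO⟩ := hN n hnN
  simp only at hA hP hO
  have hdn : dM e (gn n) = 2*((K2 n : ℝ)/n) := by
    simp only [gn, dM]; field_simp; ring
  have hcn : cM e (gn n) (mn n) = 2*((K1 n : ℝ)/n) := by
    unfold cM
    rw [hdn]
    simp only [mn]; field_simp; ring
  obtain ⟨-, -, -, -, -, hc0, hd0, ha0, -, -⟩ := (hA _ h11).2.1
  simp only at hc0 hd0 ha0
  have han : aM e (gn n) (mn n) = 1 - 2*((K1 n : ℝ)/n) - 2*((K2 n : ℝ)/n) := by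
    unfold aM; rw [hcn, hdn]
  have hk1 : 0 < K1 n := by
    rw [hcn] at hc0
    rcases Nat.eq_zero_or_pos (K1 n) with h | h
    · rw [h] at hc0; simp at hc0
    · exact h
  have hk2 : 0 < K2 n := by
    rw [hdn] at hd0
    rcases Nat.eq_zero_or_pos (K2 n) with h | h
    · rw [h] at hd0; simp at hd0
    · exact h
  have hlt : K1 n + K1 n + K2 n + K2 n < n := by
    rw [han] at ha0
    have h1 : (K1 n + K1 n + K2 n + K2 n : ℝ) < n := by
      have h2 : (1 - 2*((K1 n : ℝ)/n) - 2*((K2 n : ℝ)/n))*n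
          = n - (K1 n + K1 n + K2 n + K2 n : ℝ) := by
        field_simp; ring
      have h3 := mul_pos ha0 hnr
      rw [h2] at h3
      linarith
    exact_mod_cast h1
  obtain ⟨n0, hn0⟩ : ∃ n0, n0 + K1 n + K1 n + K2 n + K2 n = n :=
    ⟨n - (K1 n + K1 n + K2 n + K2 n), by omega⟩
  have hn0pos : 0 < n0 := by omega
  obtain ⟨τ, hτ⟩ := exists_types hn0
  have ha : (n0:ℝ) = aM e (gn n) (mn n)*n := by
    have h1 : (n0:ℝ) + K1 n + K1 n + K2 n + K2 n = n := by exact_mod_cast hn0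
    rw [han]
    field_simp
    linarith
  have hc : (K1 n:ℝ) = cM e (gn n) (mn n)/2*n := by
    rw [hcn]; field_simp
  have hd : (K2 n:ℝ) = dM e (gn n)/2*n := by
    rw [hdn]; field_simp
  obtain ⟨h1, h2⟩ := omega_family (M := M+1) (by omega) hn1 hn0 hτ hn0pos hk1 hk2 he ha hc hd
    hA hP hO
  refine ⟨U0, Phi τ e, Metric.isOpen_ball, ⟨_, Metric.mem_ball_self (by norm_num)⟩,
    Phi_cont τ e, h1, fun u hu => ?_⟩
  obtain ⟨a1, a2, a3, a4, a5⟩ := h2 u hu
  refine ⟨a1, a2, a3, lt_trans ?_ a4, fun L hL p hp1 hp2 => a5 L hL p hp1 (by omega)⟩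
  exact_mod_cast Nat.lt_succ_self M

end Pool.Agent.Helper46.Corr
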