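import Pool.Agent.Helper46.Corr.Trap

/-!
The unstable focus inside the trapping region, and non-convergence of orbits.
-/

set_option autoImplicit false
open Filter Topology

namespace Pool.Agent.Helper46.Corr

noncomputable section

/-- parameter with an unstable focus, `b < 4` -/
def lb (b : ℝ) : Par := (0, (3-2*b)/4, b)

/-- the focus -/
def zb (b : ℝ) : Pt := (1, b/4)

def NN (b : ℝ) (w : Pt) : ℝ := b/2*w.1^2 + (b-2)*(w.1*w.2) + 4*w.2^2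

theorem NN_lower {b : ℝ} (h1 : 7/2 ≤ b) (h2 : b ≤ 4) (w : Pt) : 3/4*‖w‖^2 ≤ NN b w := by
  have hn : ‖w‖^2 ≤ w.1^2+w.2^2 := by
    rw [Prod.norm_def]
    rcases max_cases ‖w.1‖ ‖w.2‖ with ⟨h, _⟩ | ⟨h, _⟩
    · rw [h, Real.norm_eq_abs, sq_abs]; nlinarith [sq_nonneg w.2]
    · rw [h, Real.norm_eq_abs, sq_abs]; nlinarith [sq_nonneg w.1]
  have : 3/4*(w.1^2+w.2^2) ≤ NN b w := by
    unfold NN
    nlinarith [sq_nonneg (w.1+w.2), sq_nonneg (w.1-w.2), sq_nonneg w.1, sq_nonneg w.2,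
      mul_nonneg (sub_nonneg.mpr h1) (sq_nonneg (w.1+w.2)),
      mul_nonneg (sub_nonneg.mpr h2) (sq_nonneg (w.1-w.2)),
      mul_nonneg (sub_nonneg.mpr h1) (sq_nonneg (w.1-w.2)),
      mul_nonneg (sub_nonneg.mpr h2) (sq_nonneg (w.1+w.2))]
  linarith

def JJ (b : ℝ) (w : Pt) : Pt := ((3-b)*w.1 - 4*w.2, b/2*w.1 + w.2)

theorem NN_expand {b δ c : ℝ} (h1 : 7/2 ≤ b) (h2 : b ≤ 4) (hδ : 0 ≤ δ) (w g : Pt)
    (hc : ‖g - JJ b w‖ ≤ c*‖w‖) (hcb : c ≤ (4-b)/32) :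
    NN b w ≤ NN b (w + δ • g) := by
  obtain ⟨e, he⟩ : ∃ e, e = g - JJ b w := ⟨_, rfl⟩
  have hg : g = JJ b w + e := by rw [he]; abel
  have h3 : NN b (w + δ • g) = NN b w
      + δ*((4-b)*NN b w + (b*(w.1*e.1) + (b-2)*(w.1*e.2+w.2*e.1) + 8*(w.2*e.2)))
      + δ^2*NN b g := by
    rw [hg]
    simp only [NN, JJ, Prod.fst_add, Prod.snd_add, Prod.smul_fst, Prod.smul_snd, smul_eq_mul]
    ring
  have hNg : 0 ≤ NN b g := le_trans (by positivity) (NN_lower h1 h2 g)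
  have hNw := NN_lower h1 h2 w
  have hen : ‖e‖ ≤ c*‖w‖ := by rw [he]; exact hc
  have a1 : |w.1| ≤ ‖w‖ := norm_fst_le w
  have a2 : |w.2| ≤ ‖w‖ := norm_snd_le w
  have a3 : |e.1| ≤ c*‖w‖ := (norm_fst_le e).trans hen
  have a4 : |e.2| ≤ c*‖w‖ := (norm_snd_le e).trans hen
  have hw0 : 0 ≤ ‖w‖ := norm_nonneg w
  have p1 : |w.1*e.1| ≤ c*‖w‖^2 := by
    rw [abs_mul]
    calc |w.1| * |e.1| ≤ ‖w‖*(c*‖w‖) := mul_le_mul a1 a3 (abs_nonneg _) hw0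
      _ = c*‖w‖^2 := by ring
  have p2 : |w.1*e.2| ≤ c*‖w‖^2 := by
    rw [abs_mul]
    calc |w.1| * |e.2| ≤ ‖w‖*(c*‖w‖) := mul_le_mul a1 a4 (abs_nonneg _) hw0
      _ = c*‖w‖^2 := by ring
  have p3 : |w.2*e.1| ≤ c*‖w‖^2 := by
    rw [abs_mul]
    calc |w.2| * |e.1| ≤ ‖w‖*(c*‖w‖) := mul_le_mul a2 a3 (abs_nonneg _) hw0
      _ = c*‖w‖^2 := by ring
  have p4 : |w.2*e.2| ≤ c*‖w‖^2 := by
    rw [abs_mul]
    calc |w.2| * |e.2| ≤ ‖w‖*(c*‖w‖) := mul_le_mul a2 a4 (abs_nonneg _) hw0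
      _ = c*‖w‖^2 := by ring
  have q1 := (abs_le.mp p1).1
  have q2 := (abs_le.mp p2).1
  have q3 := (abs_le.mp p3).1
  have q4 := (abs_le.mp p4).1
  set X := ‖w‖^2 with hX
  have hX0 : 0 ≤ X := by positivity
  have hcX : c*X ≤ (4-b)/32*X := mul_le_mul_of_nonneg_right hcb hX0
  have hinner : 0 ≤ (4-b)*NN b w + (b*(w.1*e.1) + (b-2)*(w.1*e.2+w.2*e.1) + 8*(w.2*e.2)) := by
    have t1 : (4-b)*(3/4*X) ≤ (4-b)*NN b w := mul_le_mul_of_nonneg_left hNw (by linarith)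
    have cX0 : 0 ≤ c*X := le_trans (abs_nonneg _) p1
    have t2 : -(4*(c*X)) ≤ b*(w.1*e.1) := by
      have : b*(-(c*X)) ≤ b*(w.1*e.1) := mul_le_mul_of_nonneg_left q1 (by linarith)
      nlinarith
    have t3 : -(4*(c*X)) ≤ (b-2)*(w.1*e.2+w.2*e.1) := by
      have : (b-2)*(-(2*(c*X))) ≤ (b-2)*(w.1*e.2+w.2*e.1) :=
        mul_le_mul_of_nonneg_left (by linarith) (by linarith)
      nlinarith
    have t4 : (4-b)*(3/4*X) = (4-b)/32*X*24 := by ring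
    nlinarith
  rw [h3]
  have := mul_nonneg hδ hinner
  have h5 : 0 ≤ δ^2*NN b g := mul_nonneg (sq_nonneg _) hNg
  linarith

theorem NN_expand' {b δ c : ℝ} (h1 : 7/2 ≤ b) (h2 : b ≤ 4) (hδ : 0 ≤ δ) (w g : Pt)
    (hc : ‖g - JJ b w‖ ≤ c*‖w‖) (hcb : c ≤ (4-b)/32) :
    NN b w + δ*((4-b)/4*‖w‖^2) ≤ NN b (w + δ • g) := by
  obtain ⟨e, he⟩ : ∃ e, e = g - JJ b w := ⟨_, rfl⟩
  have hg : g = JJ b w + e := by rw [he]; abel
  have h3 : NN b (w + δ • g) = NN b w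
      + δ*((4-b)*NN b w + (b*(w.1*e.1) + (b-2)*(w.1*e.2+w.2*e.1) + 8*(w.2*e.2)))
      + δ^2*NN b g := by
    rw [hg]
    simp only [NN, JJ, Prod.fst_add, Prod.snd_add, Prod.smul_fst, Prod.smul_snd, smul_eq_mul]
    ring
  have hNg : 0 ≤ NN b g := le_trans (by positivity) (NN_lower h1 h2 g)
  have hNw := NN_lower h1 h2 w
  have hen : ‖e‖ ≤ c*‖w‖ := by rw [he]; exact hc
  have a1 : |w.1| ≤ ‖w‖ := norm_fst_le w
  have a2 : |w.2| ≤ ‖w‖ := norm_snd_le w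
  have a3 : |e.1| ≤ c*‖w‖ := (norm_fst_le e).trans hen
  have a4 : |e.2| ≤ c*‖w‖ := (norm_snd_le e).trans hen
  have hw0 : 0 ≤ ‖w‖ := norm_nonneg w
  have p1 : |w.1*e.1| ≤ c*‖w‖^2 := by
    rw [abs_mul]
    calc |w.1| * |e.1| ≤ ‖w‖*(c*‖w‖) := mul_le_mul a1 a3 (abs_nonneg _) hw0
      _ = c*‖w‖^2 := by ring
  have p2 : |w.1*e.2| ≤ c*‖w‖^2 := by
    rw [abs_mul]
    calc |w.1| * |e.2| ≤ ‖w‖*(c*‖w‖) := mul_le_mul a1 a4 (abs_nonneg _) hw0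
      _ = c*‖w‖^2 := by ring
  have p3 : |w.2*e.1| ≤ c*‖w‖^2 := by
    rw [abs_mul]
    calc |w.2| * |e.1| ≤ ‖w‖*(c*‖w‖) := mul_le_mul a2 a3 (abs_nonneg _) hw0
      _ = c*‖w‖^2 := by ring
  have p4 : |w.2*e.2| ≤ c*‖w‖^2 := by
    rw [abs_mul]
    calc |w.2| * |e.2| ≤ ‖w‖*(c*‖w‖) := mul_le_mul a2 a4 (abs_nonneg _) hw0
      _ = c*‖w‖^2 := by ring
  have q1 := (abs_le.mp p1).1
  have q2 := (abs_le.mp p2).1
  have q3 := (abs_le.mp p3).1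
  have q4 := (abs_le.mp p4).1
  set X := ‖w‖^2 with hX
  have hX0 : 0 ≤ X := by positivity
  have hcX : c*X ≤ (4-b)/32*X := mul_le_mul_of_nonneg_right hcb hX0
  have hinner : (4-b)/4*X
      ≤ (4-b)*NN b w + (b*(w.1*e.1) + (b-2)*(w.1*e.2+w.2*e.1) + 8*(w.2*e.2)) := by
    have t1 : (4-b)*(3/4*X) ≤ (4-b)*NN b w := mul_le_mul_of_nonneg_left hNw (by linarith)
    have cX0 : 0 ≤ c*X := le_trans (abs_nonneg _) p1
    have t2 : -(4*(c*X)) ≤ b*(w.1*e.1) := by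
      have : b*(-(c*X)) ≤ b*(w.1*e.1) := mul_le_mul_of_nonneg_left q1 (by linarith)
      nlinarith
    have t3 : -(4*(c*X)) ≤ (b-2)*(w.1*e.2+w.2*e.1) := by
      have : (b-2)*(-(2*(c*X))) ≤ (b-2)*(w.1*e.2+w.2*e.1) :=
        mul_le_mul_of_nonneg_left (by linarith) (by linarith)
      nlinarith
    have t4 : (4-b)*(3/4*X) = (4-b)/32*X*24 := by ring
    have t5 : (4-b)/4*X = (4-b)/32*X*8 := by ring
    have t6 : 0 ≤ (4-b)/32*X := le_trans cX0 hcX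
    linarith
  rw [h3]
  have := mul_le_mul_of_nonneg_left hinner hδ
  have h5 : 0 ≤ δ^2*NN b g := mul_nonneg (sq_nonneg _) hNg
  linarith

theorem deriv_poly (A B C D : ℝ) :
    HasDerivAt (fun t : ℝ => A + B*t + C*t^2 + D*t^3) B 0 := by
  have h1 : HasDerivAt (fun t : ℝ => A + B*t + C*t^2 + D*t^3)
      (0 + B*1 + C*(2*0^(2-1)*1) + D*(3*0^(3-1)*1)) 0 := by
    have ht : HasDerivAt (fun t : ℝ => t) 1 0 := hasDerivAt_id 0
    exact ((((hasDerivAt_const _ _).add (ht.const_mul B)).add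
      (((ht.pow 2)).const_mul C)).add ((ht.pow 3).const_mul D))
  simpa using h1

theorem strict_near (b : ℝ) {c : ℝ} (hc : 0 < c) :
    ∀ᶠ q : (Par × Pt) × (Par × Pt) in 𝓝 ((lb b, zb b), (lb b, zb b)),
      q.1.1 = q.2.1 → ‖G q.1 - G q.2 - JJ b (q.1.2 - q.2.2)‖ ≤ c*‖q.1.2 - q.2.2‖ := by
  have hcd : ContDiffAt ℝ 1 G (lb b, zb b) := contDiffAt_G (p := (lb b, zb b)) rfl
  have hs := hcd.hasStrictFDerivAt (by norm_num)
  set G' := fderiv ℝ G (lb b, zb b) with hG'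
  have key : ∀ w : Pt, G' (0, w) = JJ b w := by
    intro w
    have hc1 : HasDerivAt (fun t : ℝ => ((lb b, zb b + t • w) : Par × Pt)) (0, w) 0 := by
      refine HasDerivAt.prodMk (hasDerivAt_const _ _) ?_
      have : HasDerivAt (fun t : ℝ => zb b + t • w) ((1:ℝ) • w) 0 :=
        ((hasDerivAt_id (0:ℝ)).smul_const w).const_add (zb b)
      simpa using this
    have hc2 : HasDerivAt (fun t : ℝ => G (lb b, zb b + t • w)) (G' (0, w)) 0 := by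
      have h0 : HasFDerivAt G G' ((fun t : ℝ => ((lb b, zb b + t • w) : Par × Pt)) 0) := by
        simpa using hs.hasFDerivAt
      exact h0.comp_hasDerivAt 0 hc1
    have hc3 : HasDerivAt (fun t : ℝ => G (lb b, zb b + t • w)) (JJ b w) 0 := by
      have e1 : (fun t : ℝ => G (lb b, zb b + t • w)) = fun t : ℝ =>
          ((0 + ((3-b)*w.1 - 4*w.2)*t
            + ((9-2*b)/2*w.1^2+ b/2*w.1^2 - b/2*w.1^2 - 8*w.1*w.2 - b/2*w.1^2 + b/2*w.1^2)*t^2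
            + (3/2*w.1^3-4*w.1^2*w.2)*t^3),
           (0 + (b/2*w.1 + w.2)*t + (b/4*w.1^2 + 2*w.1*w.2)*t^2 + (w.1^2*w.2)*t^3)) := by
        funext t
        have := G_zero ((3-2*b)/4) b (1 + t*w.1) (b/4 + t*w.2)
        have e2 : ((lb b, zb b + t • w) : Par × Pt)
            = ((0, (3-2*b)/4, b), (1 + t*w.1, b/4 + t*w.2)) := by
          simp only [lb, zb]
          ext <;> simp
        rw [e2, this]
        refine Prod.ext ?_ ?_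
        · simp only; ring
        · simp only; ring
      rw [e1]
      exact HasDerivAt.prodMk (deriv_poly _ _ _ _) (deriv_poly _ _ _ _)
    exact hc2.unique hc3
  have hlo := hs.isLittleO.def hc
  filter_upwards [hlo] with q hq heq
  have e3 : q.1 - q.2 = (0, q.1.2 - q.2.2) := by
    ext <;> simp [heq]
  rw [e3, key] at hq
  refine hq.trans ?_
  have : ‖((0 : Par), q.1.2 - q.2.2)‖ = ‖q.1.2 - q.2.2‖ := by
    rw [Prod.norm_def]
    simp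
  rw [this]

end

end Pool.Agent.Helper46.Corr
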