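import Mathlib

/-!
Two-dimensional map obtained from the iterated correlation map on a rank three family,
written as a near-identity map `z + e^2 G(e,g,m,z)`.
-/

set_option autoImplicit false
open Filter Topology

namespace Pool.Agent.Helper46.Corr

noncomputable section

def dM (e g : ℝ) : ℝ := 1/4 + g*e^2
def cM (e g m : ℝ) : ℝ := dM e g + m*e^3
def aM (e g m : ℝ) : ℝ := 1 - cM e g m - dM e g
def rho (e s v : ℝ) : ℝ := s*(1-8*e*v)
def kap2 (e g m s v : ℝ) : ℝ := s*(m*e^2 + 8*dM e g*v)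
def V2 (e g m s v : ℝ) : ℝ :=
  -g - m*e - e^2*(2*g+m*e)^2 + 2*cM e g m*s^2 + dM e g*(rho e s v)^2
    - 2*aM e g m*kap2 e g m s v - e^2*(kap2 e g m s v)^2
def VV (e g m s v : ℝ) : ℝ := cM e g m*(1-e^2*s^2) + e^2*V2 e g m s v
def D1 (e g m s v : ℝ) : ℝ := e^2*s^2*VV e g m s v + cM e g m*(1-e^2*s^2)^2
def D2 (e g m s v : ℝ) : ℝ :=
  e^2*(rho e s v)^2*VV e g m s v + dM e g*(1-e^2*(rho e s v)^2)^2
def kap3 (e s v : ℝ) : ℝ := 16*s^2*v*(1-4*e*v)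
def NH (e g m s v : ℝ) : ℝ :=
  m*(1-e^2*s^2)^2 + kap3 e s v*(VV e g m s v - dM e g*(2-e^2*(s^2+(rho e s v)^2)))
def G1 (e g m s v : ℝ) : ℝ := (1-e^2*s^2)*V2 e g m s v/D1 e g m s v
def H1 (e g m s v : ℝ) : ℝ := NH e g m s v/D2 e g m s v
def Gs (e g m s v : ℝ) : ℝ := s*G1 e g m s v/(1+Real.sqrt (1+e^2*G1 e g m s v))
def Gv (e g m s v : ℝ) : ℝ :=
  -(1-8*e*v)*H1 e g m s v/(8*(1+Real.sqrt (1+e^3*H1 e g m s v)))

theorem VV_eq (e g m s v : ℝ) :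
    VV e g m s v = aM e g m + cM e g m*(e*s)^2 + dM e g*(e*rho e s v)^2
      - (aM e g m + cM e g m*(e*s) - dM e g*(e*rho e s v))^2 := by
  unfold VV V2 aM kap2 rho cM dM
  ring

theorem VV_sub (e g m s v : ℝ) :
    VV e g m s v - D1 e g m s v = e^2*((1-e^2*s^2)*V2 e g m s v) := by
  unfold D1 VV
  ring

theorem D_sub (e g m s v : ℝ) :
    D1 e g m s v - D2 e g m s v = e^3*NH e g m s v := by
  unfold D1 D2 NH kap3 rho cM
  ring

abbrev Par := ℝ × ℝ × ℝ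
abbrev Pt := ℝ × ℝ

def G (p : Par × Pt) : Pt :=
  (Gs p.1.1 p.1.2.1 p.1.2.2 p.2.1 p.2.2, Gv p.1.1 p.1.2.1 p.1.2.2 p.2.1 p.2.2)

theorem D1_zero (g m s v : ℝ) : D1 0 g m s v = 1/4 := by
  unfold D1 cM dM; ring

theorem D2_zero (g m s v : ℝ) : D2 0 g m s v = 1/4 := by
  unfold D2 dM; ring

theorem contDiff_V2 : ContDiff ℝ 1 (fun p : Par × Pt =>
    V2 p.1.1 p.1.2.1 p.1.2.2 p.2.1 p.2.2) := by
  unfold V2 aM kap2 rho cM dM
  fun_prop

theorem contDiff_VV : ContDiff ℝ 1 (fun p : Par × Pt =>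
    VV p.1.1 p.1.2.1 p.1.2.2 p.2.1 p.2.2) := by
  unfold VV V2 aM kap2 rho cM dM
  fun_prop

theorem contDiff_D1 : ContDiff ℝ 1 (fun p : Par × Pt =>
    D1 p.1.1 p.1.2.1 p.1.2.2 p.2.1 p.2.2) := by
  unfold D1 VV V2 aM kap2 rho cM dM
  fun_prop

theorem contDiff_D2 : ContDiff ℝ 1 (fun p : Par × Pt =>
    D2 p.1.1 p.1.2.1 p.1.2.2 p.2.1 p.2.2) := by
  unfold D2 VV V2 aM kap2 rho cM dM
  fun_prop

theorem contDiff_NH : ContDiff ℝ 1 (fun p : Par × Pt =>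
    NH p.1.1 p.1.2.1 p.1.2.2 p.2.1 p.2.2) := by
  unfold NH kap3 VV V2 aM kap2 rho cM dM
  fun_prop

theorem contDiffAt_G1 {p : Par × Pt} (h : D1 p.1.1 p.1.2.1 p.1.2.2 p.2.1 p.2.2 ≠ 0) :
    ContDiffAt ℝ 1 (fun p : Par × Pt =>
      G1 p.1.1 p.1.2.1 p.1.2.2 p.2.1 p.2.2) p := by
  unfold G1
  refine ContDiffAt.div ?_ contDiff_D1.contDiffAt h
  exact (ContDiffAt.mul (by fun_prop) contDiff_V2.contDiffAt)

theorem contDiffAt_H1 {p : Par × Pt} (h : D2 p.1.1 p.1.2.1 p.1.2.2 p.2.1 p.2.2 ≠ 0) :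
    ContDiffAt ℝ 1 (fun p : Par × Pt =>
      H1 p.1.1 p.1.2.1 p.1.2.2 p.2.1 p.2.2) p := by
  unfold H1
  exact ContDiffAt.div contDiff_NH.contDiffAt contDiff_D2.contDiffAt h

theorem contDiffAt_G {p : Par × Pt} (h : p.1.1 = 0) : ContDiffAt ℝ 1 G p := by
  have h1 : D1 p.1.1 p.1.2.1 p.1.2.2 p.2.1 p.2.2 ≠ 0 := by
    rw [h, D1_zero]; norm_num
  have h2 : D2 p.1.1 p.1.2.1 p.1.2.2 p.2.1 p.2.2 ≠ 0 := by
    rw [h, D2_zero]; norm_num
  have hG := contDiffAt_G1 h1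
  have hH := contDiffAt_H1 h2
  have e1 : ContDiffAt ℝ 1 (fun p : Par × Pt => p.1.1) p := by fun_prop
  have s1 : ContDiffAt ℝ 1 (fun p : Par × Pt => p.2.1) p := by fun_prop
  have v1 : ContDiffAt ℝ 1 (fun p : Par × Pt => p.2.2) p := by fun_prop
  unfold G
  refine ContDiffAt.prodMk ?_ ?_
  · unfold Gs
    refine ContDiffAt.div (s1.mul hG) ?_ ?_
    · refine contDiffAt_const.add (ContDiffAt.sqrt ?_ ?_)
      · exact contDiffAt_const.add ((e1.pow 2).mul hG)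
      · rw [h]; norm_num
    · positivity
  · unfold Gv
    refine ContDiffAt.div ?_ ?_ ?_
    · refine ContDiffAt.mul ?_ hH
      exact (contDiffAt_const.sub ((contDiffAt_const.mul e1).mul v1)).neg
    · refine contDiffAt_const.mul (contDiffAt_const.add (ContDiffAt.sqrt ?_ ?_))
      · exact contDiffAt_const.add ((e1.pow 3).mul hH)
      · rw [h]; norm_num
    · positivity

theorem G_zero (g m s v : ℝ) :
    G ((0, g, m), (s, v)) = (s/2*(3*s^2 - 8*s*v - 4*g), s^2*v - m/4) := by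
  unfold G
  refine Prod.ext ?_ ?_
  · simp only [Gs, G1, D1_zero]
    simp only [V2, aM, kap2, rho, cM, dM]
    norm_num
    ring
  · simp only [Gv, H1, D2_zero]
    simp only [NH, kap3, VV, V2, aM, kap2, rho, cM, dM]
    norm_num
    ring

end

end Pool.Agent.Helper46.Corr
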