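import Pool.Agent.Helper46.Corr.Slow

/-!
The trapping region `B` of the slow vector field at the Hopf parameter.
-/

set_option autoImplicit false
open Filter Topology

namespace Pool.Agent.Helper46.Corr

noncomputable section

/-- Lyapunov function (normal form at the Hopf parameter), `x = s - 1`, `y = v - 1`. -/
def HH (x y : ℝ) : ℝ :=
  x^2 + x*y + 2*y^2 - 31/21*x^3 - 45/14*x^2*y - 20/7*x*y^2 - 80/21*y^3
    + 131/196*x^4 + 120/49*x^3*y + 15/98*x^2*y^2 + 10/49*x*y^3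

def HA (x x' y : ℝ) : ℝ :=
  (x+x') + y - 31/21*(x^2+x*x'+x'^2) - 45/14*(x+x')*y - 20/7*y^2
    + 131/196*(x^3+x^2*x'+x*x'^2+x'^3) + 120/49*(x^2+x*x'+x'^2)*y
    + 15/98*(x+x')*y^2 + 10/49*y^3

def HB (x y y' : ℝ) : ℝ :=
  x + 2*(y+y') - 45/14*x^2 - 20/7*x*(y+y') - 80/21*(y^2+y*y'+y'^2)
    + 120/49*x^3 + 15/98*x^2*(y+y') + 10/49*x*(y^2+y*y'+y'^2)

theorem HH_sub (x y x' y' : ℝ) :
    HH x' y' - HH x y = (x'-x)*HA x x' y' + (y'-y)*HB x y y' := by
  unfold HH HA HB; ring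

/-- radius -/
def r0 : ℝ := 1/1000

theorem mono_bound {x y : ℝ} (hx : |x| ≤ r0) (hy : |y| ≤ r0) (i j : ℕ) (h : 5 ≤ i + j) :
    |x^i*y^j| ≤ r0*(x^2+y^2)^2 := by
  have hr : (0:ℝ) < r0 := by unfold r0; norm_num
  have hr1 : r0 ≤ 1 := by unfold r0; norm_num
  set t := max |x| |y| with ht
  have ht0 : 0 ≤ t := le_max_of_le_left (abs_nonneg x)
  have htr : t ≤ r0 := max_le hx hy
  have hxt : |x| ≤ t := le_max_left _ _
  have hyt : |y| ≤ t := le_max_right _ _
  have h1 : |x^i*y^j| ≤ t^(i+j) := by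
    rw [abs_mul, abs_pow, abs_pow, pow_add]
    exact mul_le_mul (pow_le_pow_left₀ (abs_nonneg x) hxt i)
      (pow_le_pow_left₀ (abs_nonneg y) hyt j) (by positivity) (by positivity)
  have h2 : t^(i+j) ≤ t^5 := pow_le_pow_of_le_one ht0 (htr.trans hr1) h
  have h3 : t^5 ≤ r0*t^4 := by
    have : t^5 = t*t^4 := by ring
    rw [this]
    exact mul_le_mul_of_nonneg_right htr (by positivity)
  have h4 : t^2 ≤ x^2+y^2 := by
    rcases max_cases |x| |y| with ⟨h, _⟩ | ⟨h, _⟩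
    · rw [ht, h, sq_abs]; nlinarith [sq_nonneg y]
    · rw [ht, h, sq_abs]; nlinarith [sq_nonneg x]
  have h5 : t^4 ≤ (x^2+y^2)^2 := by
    have : t^4 = (t^2)^2 := by ring
    rw [this]
    exact pow_le_pow_left₀ (by positivity) h4 2
  calc |x^i*y^j| ≤ t^(i+j) := h1
    _ ≤ t^5 := h2
    _ ≤ r0*t^4 := h3
    _ ≤ r0*(x^2+y^2)^2 := mul_le_mul_of_nonneg_left h5 hr.le

theorem mono_bound3 {x y : ℝ} (hx : |x| ≤ r0) (hy : |y| ≤ r0) (i j : ℕ) (h : 3 ≤ i + j) :
    |x^i*y^j| ≤ r0*(x^2+y^2) := by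
  have hr : (0:ℝ) < r0 := by unfold r0; norm_num
  have hr1 : r0 ≤ 1 := by unfold r0; norm_num
  set t := max |x| |y| with ht
  have ht0 : 0 ≤ t := le_max_of_le_left (abs_nonneg x)
  have htr : t ≤ r0 := max_le hx hy
  have hxt : |x| ≤ t := le_max_left _ _
  have hyt : |y| ≤ t := le_max_right _ _
  have h1 : |x^i*y^j| ≤ t^(i+j) := by
    rw [abs_mul, abs_pow, abs_pow, pow_add]
    exact mul_le_mul (pow_le_pow_left₀ (abs_nonneg x) hxt i)
      (pow_le_pow_left₀ (abs_nonneg y) hyt j) (by positivity) (by positivity)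
  have h2 : t^(i+j) ≤ t^3 := pow_le_pow_of_le_one ht0 (htr.trans hr1) h
  have h3 : t^3 ≤ r0*t^2 := by
    have : t^3 = t*t^2 := by ring
    rw [this]
    exact mul_le_mul_of_nonneg_right htr (by positivity)
  have h4 : t^2 ≤ x^2+y^2 := by
    rcases max_cases |x| |y| with ⟨h, _⟩ | ⟨h, _⟩
    · rw [ht, h, sq_abs]; nlinarith [sq_nonneg y]
    · rw [ht, h, sq_abs]; nlinarith [sq_nonneg x]
  calc |x^i*y^j| ≤ t^(i+j) := h1
    _ ≤ t^3 := h2
    _ ≤ r0*t^2 := h3
    _ ≤ r0*(x^2+y^2) := mul_le_mul_of_nonneg_left h4 hr.le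

/-- derivative of `HH` along the slow field at the Hopf parameter -/
def HD (s v : ℝ) : ℝ :=
  (s/2*(3*s^2 - 8*s*v + 5))*HA (s-1) (s-1) (v-1) + (s^2*v-1)*HB (s-1) (v-1) (v-1)

theorem HD_neg {s v : ℝ} (hx : |s-1| ≤ r0) (hy : |v-1| ≤ r0) (hne : ¬ (s = 1 ∧ v = 1)) :
    HD s v < 0 := by
  set x := s-1 with hxd
  set y := v-1 with hyd
  have hs : s = 1+x := by rw [hxd]; ring
  have hv : v = 1+y := by rw [hyd]; ring
  have hn : 0 < x^2+y^2 := by
    by_contra hcon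
    have h0 : x^2+y^2 = 0 := le_antisymm (not_lt.mp hcon) (by positivity)
    have hx0 : x = 0 := by
      have : x^2 = 0 := by nlinarith [sq_nonneg x, sq_nonneg y]
      exact pow_eq_zero_iff (two_ne_zero) |>.mp this
    have hy0 : y = 0 := by
      have : y^2 = 0 := by nlinarith [sq_nonneg x, sq_nonneg y]
      exact pow_eq_zero_iff (two_ne_zero) |>.mp this
    exact hne ⟨by rw [hs, hx0]; ring, by rw [hv, hy0]; ring⟩
  have key : HD s v = -(10/49)*(x^2+x*y+2*y^2)^2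
      + (-80/49*(x^1*y^4) - 55/49*(x^2*y^3) - 40/49*(x^2*y^4) - 4085/98*(x^3*y^2)
        - 15/49*(x^3*y^3) - 375/49*(x^4*y^1) - 2805/98*(x^4*y^2) - 20/7*(x^5*y^0)
        + 136/49*(x^5*y^1) + 393/98*(x^6*y^0)) := by
    unfold HD HA HB
    rw [← hxd, ← hyd, hs, hv]
    ring
  have b1 := abs_le.mp (mono_bound hx hy 1 4 (by norm_num))
  have b2 := abs_le.mp (mono_bound hx hy 2 3 (by norm_num))
  have b3 := abs_le.mp (mono_bound hx hy 2 4 (by norm_num))
  have b4 := abs_le.mp (mono_bound hx hy 3 2 (by norm_num))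
  have b5 := abs_le.mp (mono_bound hx hy 3 3 (by norm_num))
  have b6 := abs_le.mp (mono_bound hx hy 4 1 (by norm_num))
  have b7 := abs_le.mp (mono_bound hx hy 4 2 (by norm_num))
  have b8 := abs_le.mp (mono_bound hx hy 5 0 (by norm_num))
  have b9 := abs_le.mp (mono_bound hx hy 5 1 (by norm_num))
  have b10 := abs_le.mp (mono_bound hx hy 6 0 (by norm_num))
  have hq : 3/4*(x^2+y^2) ≤ x^2+x*y+2*y^2 := by nlinarith [sq_nonneg (x+2*y), sq_nonneg y]
  have hq2 : 9/16*(x^2+y^2)^2 ≤ (x^2+x*y+2*y^2)^2 := by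
    have : (3/4*(x^2+y^2))^2 ≤ (x^2+x*y+2*y^2)^2 :=
      pow_le_pow_left₀ (by positivity) hq 2
    linarith [this, show (3/4*(x^2+y^2))^2 = 9/16*(x^2+y^2)^2 by ring]
  have hpos : 0 < (x^2+y^2)^2 := by positivity
  have hr : r0 = 1/1000 := rfl
  rw [hr] at b1 b2 b3 b4 b5 b6 b7 b8 b9 b10
  rw [key]
  linarith [b1.1, b1.2, b2.1, b2.2, b3.1, b3.2, b4.1, b4.2, b5.1, b5.2, b6.1, b6.2, b7.1, b7.2,
    b8.1, b8.2, b9.1, b9.2, b10.1, b10.2]

theorem HH_lower {x y : ℝ} (hx : |x| ≤ r0) (hy : |y| ≤ r0) :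
    7/10*(x^2+y^2) ≤ HH x y := by
  have b1 := abs_le.mp (mono_bound3 hx hy 3 0 (by norm_num))
  have b2 := abs_le.mp (mono_bound3 hx hy 2 1 (by norm_num))
  have b3 := abs_le.mp (mono_bound3 hx hy 1 2 (by norm_num))
  have b4 := abs_le.mp (mono_bound3 hx hy 0 3 (by norm_num))
  have b5 := abs_le.mp (mono_bound3 hx hy 4 0 (by norm_num))
  have b6 := abs_le.mp (mono_bound3 hx hy 3 1 (by norm_num))
  have b7 := abs_le.mp (mono_bound3 hx hy 2 2 (by norm_num))
  have b8 := abs_le.mp (mono_bound3 hx hy 1 3 (by norm_num))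
  have hq : 3/4*(x^2+y^2) ≤ x^2+x*y+2*y^2 := by nlinarith [sq_nonneg (x+2*y), sq_nonneg y]
  have key : HH x y = x^2+x*y+2*y^2 - 31/21*(x^3*y^0) - 45/14*(x^2*y^1) - 20/7*(x^1*y^2)
      - 80/21*(x^0*y^3) + 131/196*(x^4*y^0) + 120/49*(x^3*y^1) + 15/98*(x^2*y^2)
      + 10/49*(x^1*y^3) := by
    unfold HH; ring
  have hr : r0 = 1/1000 := rfl
  rw [hr] at b1 b2 b3 b4 b5 b6 b7 b8
  rw [key]
  have hpos : 0 ≤ x^2+y^2 := by positivity
  linarith [b1.1, b1.2, b2.1, b2.2, b3.1, b3.2, b4.1, b4.2, b5.1, b5.2, b6.1, b6.2, b7.1, b7.2,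
    b8.1, b8.2]

def h0 : ℝ := r0^2/2

/-- trapping region -/
def BB : Set Pt := {z | |z.1-1| ≤ r0 ∧ |z.2-1| ≤ r0 ∧ HH (z.1-1) (z.2-1) ≤ h0}

theorem BB_interior {z : Pt} (hz : z ∈ BB) : |z.1-1| < r0 ∧ |z.2-1| < r0 := by
  obtain ⟨h1, h2, h3⟩ := hz
  have h4 := HH_lower h1 h2
  have hr : r0 = 1/1000 := rfl
  have hh : h0 = r0^2/2 := rfl
  have h5 : (z.1-1)^2+(z.2-1)^2 < r0^2 := by
    rw [hh] at h3
    have : (0:ℝ) < r0^2 := by rw [hr]; norm_num
    nlinarith
  have hr0 : (0:ℝ) < r0 := by rw [hr]; norm_num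
  constructor
  · apply abs_lt_of_sq_lt_sq _ hr0.le
    nlinarith [sq_nonneg (z.2-1)]
  · apply abs_lt_of_sq_lt_sq _ hr0.le
    nlinarith [sq_nonneg (z.1-1)]

theorem continuous_HH : Continuous (fun z : Pt => HH (z.1-1) (z.2-1)) := by
  unfold HH; fun_prop

theorem BB_closed : IsClosed BB := by
  unfold BB
  have c1 : Continuous (fun z : Pt => |z.1-1|) := by fun_prop
  have c2 : Continuous (fun z : Pt => |z.2-1|) := by fun_prop
  refine IsClosed.inter (isClosed_le c1 continuous_const) ?_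
  exact IsClosed.inter (isClosed_le c2 continuous_const)
    (isClosed_le continuous_HH continuous_const)

theorem BB_compact : IsCompact BB := by
  refine IsCompact.of_isClosed_subset (isCompact_closedBall ((1,1):Pt) r0) BB_closed ?_
  intro z hz
  rw [Metric.mem_closedBall, dist_eq_norm, Prod.norm_def]
  exact max_le hz.1 hz.2.1

theorem BB_mem_of {z : Pt} (h1 : |z.1-1| ≤ 1/5000) (h2 : |z.2-1| ≤ 1/5000) : z ∈ BB := by
  have hr : r0 = 1/1000 := rfl
  refine ⟨by rw [hr]; linarith, by rw [hr]; linarith, ?_⟩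
  have hx : |z.1-1| ≤ r0 := by rw [hr]; linarith
  have hy : |z.2-1| ≤ r0 := by rw [hr]; linarith
  set x := z.1-1
  set y := z.2-1
  have b1 := abs_le.mp (mono_bound3 hx hy 3 0 (by norm_num))
  have b2 := abs_le.mp (mono_bound3 hx hy 2 1 (by norm_num))
  have b3 := abs_le.mp (mono_bound3 hx hy 1 2 (by norm_num))
  have b4 := abs_le.mp (mono_bound3 hx hy 0 3 (by norm_num))
  have b5 := abs_le.mp (mono_bound3 hx hy 4 0 (by norm_num))
  have b6 := abs_le.mp (mono_bound3 hx hy 3 1 (by norm_num))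
  have b7 := abs_le.mp (mono_bound3 hx hy 2 2 (by norm_num))
  have b8 := abs_le.mp (mono_bound3 hx hy 1 3 (by norm_num))
  have key : HH x y = x^2+x*y+2*y^2 - 31/21*(x^3*y^0) - 45/14*(x^2*y^1) - 20/7*(x^1*y^2)
      - 80/21*(x^0*y^3) + 131/196*(x^4*y^0) + 120/49*(x^3*y^1) + 15/98*(x^2*y^2)
      + 10/49*(x^1*y^3) := by
    unfold HH; ring
  have hq : x^2+x*y+2*y^2 ≤ 5/2*(x^2+y^2) := by nlinarith [sq_nonneg (x-y), sq_nonneg x]
  have hx2 : x^2 ≤ (1/5000)^2 := by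
    rw [← sq_abs x]; exact pow_le_pow_left₀ (abs_nonneg x) h1 2
  have hy2 : y^2 ≤ (1/5000)^2 := by
    rw [← sq_abs y]; exact pow_le_pow_left₀ (abs_nonneg y) h2 2
  rw [hr] at b1 b2 b3 b4 b5 b6 b7 b8
  rw [key, h0, hr]
  have hpos : 0 ≤ x^2+y^2 := by positivity
  linarith [b1.1, b1.2, b2.1, b2.2, b3.1, b3.2, b4.1, b4.2, b5.1, b5.2, b6.1, b6.2, b7.1, b7.2,
    b8.1, b8.2]

/-- The map. -/
def TT (l : Par) (z : Pt) : Pt := z + l.1^2 • G (l, z)

/-- The parameter at the Hopf point. -/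
def lH : Par := (0, -5/4, 4)

theorem trap : ∀ᶠ l in 𝓝 lH, ∀ z ∈ BB, TT l z ∈ BB := by
  have main : ∀ z ∈ BB, ∀ᶠ q : Par × Pt in 𝓝 (lH, z), q.2 ∈ BB → TT q.1 q.2 ∈ BB := by
    intro z hz
    have hGc : ContinuousAt G (lH, z) := (contDiffAt_G (p := (lH, z)) rfl).continuousAt
    have hTc : ContinuousAt (fun q : Par × Pt => TT q.1 q.2) (lH, z) := by
      unfold TT
      have c1 : ContinuousAt (fun q : Par × Pt => q.2) (lH, z) := by fun_prop
      have c2 : ContinuousAt (fun q : Par × Pt => q.1.1^2) (lH, z) := by fun_prop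
      exact c1.add (c2.smul hGc)
    have hT0 : TT lH z = z := by unfold TT lH; simp
    have hint := BB_interior hz
    have e1 : ∀ᶠ q : Par × Pt in 𝓝 (lH, z), |(TT q.1 q.2).1-1| < r0 := by
      have hc : ContinuousAt (fun q : Par × Pt => |(TT q.1 q.2).1-1|) (lH, z) :=
        ContinuousAt.comp (x := ((lH, z) : Par × Pt)) (g := fun z : Pt => |z.1-1|)
          (by fun_prop) hTc
      refine hc.eventually_lt_const ?_
      simpa [hT0] using hint.1
    have e2 : ∀ᶠ q : Par × Pt in 𝓝 (lH, z), |(TT q.1 q.2).2-1| < r0 := by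
      have hc : ContinuousAt (fun q : Par × Pt => |(TT q.1 q.2).2-1|) (lH, z) :=
        ContinuousAt.comp (x := ((lH, z) : Par × Pt)) (g := fun z : Pt => |z.2-1|)
          (by fun_prop) hTc
      refine hc.eventually_lt_const ?_
      simpa [hT0] using hint.2
    have e3 : ∀ᶠ q : Par × Pt in 𝓝 (lH, z), q.2 ∈ BB →
        HH ((TT q.1 q.2).1-1) ((TT q.1 q.2).2-1) ≤ h0 := by
      rcases lt_or_eq_of_le hz.2.2 with hlt | heq
      · have hc : ContinuousAt (fun q : Par × Pt =>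
            HH ((TT q.1 q.2).1-1) ((TT q.1 q.2).2-1)) (lH, z) := by
          exact ContinuousAt.comp (x := ((lH, z) : Par × Pt))
            (g := fun z : Pt => HH (z.1-1) (z.2-1)) continuous_HH.continuousAt hTc
        have := hc.eventually_lt_const (u := h0) (by simpa [hT0] using hlt)
        filter_upwards [this] with q hq _
        exact hq.le
      · -- boundary case
        have hneg : HD z.1 z.2 < 0 := by
          refine HD_neg hz.1 hz.2.1 ?_
          rintro ⟨h1, h2⟩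
          rw [h1, h2] at heq
          unfold HH h0 r0 at heq
          norm_num at heq
        let Psi : Par × Pt → ℝ := fun q =>
          (G q).1 * HA (q.2.1-1) ((TT q.1 q.2).1-1) ((TT q.1 q.2).2-1)
            + (G q).2 * HB (q.2.1-1) (q.2.2-1) ((TT q.1 q.2).2-1)
        let PP : Pt × Pt × Pt → ℝ := fun w =>
          w.2.2.1 * HA (w.1.1-1) (w.2.1.1-1) (w.2.1.2-1)
            + w.2.2.2 * HB (w.1.1-1) (w.1.2-1) (w.2.1.2-1)
        have hPPc : Continuous PP := by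
          simp only [PP, HA, HB]
          fun_prop
        have c1 : ContinuousAt (fun q : Par × Pt => q.2) (lH, z) := by fun_prop
        have hPc : ContinuousAt Psi (lH, z) :=
          ContinuousAt.comp (x := ((lH, z) : Par × Pt)) (g := PP)
            (f := fun q : Par × Pt => (q.2, TT q.1 q.2, G q)) hPPc.continuousAt
            (c1.prodMk (hTc.prodMk hGc))
        have hP0 : Psi (lH, z) = HD z.1 z.2 := by
          have hG0 : G (lH, z) = (z.1/2*(3*z.1^2 - 8*z.1*z.2 - 4*(-5/4)), z.1^2*z.2 - 4/4) :=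
            G_zero (-5/4) 4 z.1 z.2
          simp only [Psi, hT0, hG0, HD]
          norm_num
        have := hPc.eventually_lt_const (u := 0) (by rw [hP0]; exact hneg)
        filter_upwards [this] with q hq hqB
        have h1 := HH_sub (q.2.1-1) (q.2.2-1) ((TT q.1 q.2).1-1) ((TT q.1 q.2).2-1)
        have h2 : (TT q.1 q.2).1 = q.2.1 + q.1.1^2*(G q).1 := by
          simp [TT]
        have h3 : (TT q.1 q.2).2 = q.2.2 + q.1.1^2*(G q).2 := by
          simp [TT]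
        have h4 : HH ((TT q.1 q.2).1-1) ((TT q.1 q.2).2-1) - HH (q.2.1-1) (q.2.2-1)
            = q.1.1^2*Psi q := by
          rw [h1]
          simp only [Psi]
          rw [show (TT q.1 q.2).1 - 1 - (q.2.1-1) = q.1.1^2*(G q).1 by rw [h2]; ring,
            show (TT q.1 q.2).2 - 1 - (q.2.2-1) = q.1.1^2*(G q).2 by rw [h3]; ring]
          ring
        have h5 : q.1.1^2*Psi q ≤ 0 :=
          mul_nonpos_of_nonneg_of_nonpos (sq_nonneg _) hq.le
        have h6 := hqB.2.2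
        linarith
    filter_upwards [e1, e2, e3] with q h1 h2 h3 hq
    exact ⟨h1.le, h2.le, h3 hq⟩
  have := BB_compact.eventually_forall_of_forall_eventually
    (P := fun l z => z ∈ BB → TT l z ∈ BB) (x₀ := lH) main
  filter_upwards [this] with l hl z hz
  exact hl z hz hz

end

end Pool.Agent.Helper46.Corr
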